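import Pool.Agent.Lib_helper50.SC.Nabla

set_option autoImplicit false

namespace Pool.Agent.SC

open Finset

theorem exists_order {V : Type*} [Finite V] (r : ℕ) (G : SimpleGraph V) :
    ∃ o : LinearOrder V, ∀ v, (SReach G r o v).ncard ≤ scol r G := by
  classical
  have := Fintype.ofFinite V
  have hne : {k : ℕ | ∃ o : LinearOrder V, ∀ v, (SReach G r o v).ncard ≤ k}.Nonempty := by
    refine ⟨Nat.card V, LinearOrder.lift' (Fintype.equivFin V) (Fintype.equivFin V).injective,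
      fun v => ?_⟩
    rw [← Set.ncard_univ]
    exact Set.ncard_le_ncard (Set.subset_univ _) (Set.toFinite _)
  exact Nat.sInf_mem hne

theorem exists_equiv_fin (V : Type*) [Fintype V] [LinearOrder V] :
    ∃ e : V ≃ Fin (Fintype.card V), ∀ u v, e u < e v ↔ u < v :=
  ⟨(monoEquivOfFin V rfl).symm.toEquiv, fun _ _ => (monoEquivOfFin V rfl).symm.lt_iff_lt⟩

theorem exists_perm {n : ℕ} (o : LinearOrder (Fin n)) :
    ∃ σ : Equiv.Perm (Fin n), ∀ u v, σ u < σ v ↔ o.lt u v := by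
  obtain ⟨e, he⟩ := @exists_equiv_fin (Fin n) _ o
  refine ⟨e.trans (finCongr (Fintype.card_fin n)), fun u v => ?_⟩
  rw [← he u v]
  exact Iff.rfl

/-- perfect form: an ordering with all strong reachability sets (walk version, target excluded)
of size at most `scol`. -/
theorem exists_perm_scol {n : ℕ} (r : ℕ) (G : SimpleGraph (Fin n)) :
    ∃ σ : Equiv.Perm (Fin n), ∀ v : Fin n,
        {u : Fin n | σ u < σ v ∧ ∃ p : G.Walk u v, p.length ≤ r ∧
            ∀ w ∈ p.support, w ≠ u → w ≠ v → σ v < σ w}.ncard ≤ scol r G := by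
  classical
  obtain ⟨o, ho⟩ := exists_order r G
  obtain ⟨σ, hσ⟩ := exists_perm o
  refine ⟨σ, fun v => le_trans (Set.ncard_le_ncard ?_ (Set.toFinite _)) (ho v)⟩
  rintro u ⟨huv, p, hp, hint⟩
  refine ⟨?_, p.reverse.bypass, p.reverse.bypass_isPath, ?_, ?_⟩
  · exact @le_of_lt _ o.toPreorder _ _ ((hσ u v).mp huv)
  · exact (SimpleGraph.Walk.length_bypass_le_length _).trans (by simpa using hp)
  · intro w hw hwv hwu
    have h1 := SimpleGraph.Walk.support_bypass_subset_support _ hw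
    rw [SimpleGraph.Walk.support_reverse, List.mem_reverse] at h1
    exact (hσ v w).mp (hint w h1 hwu hwv)

theorem walk_of_induce {V : Type*} {G : SimpleGraph V} {B : Set V} {a b : B}
    (p : (G.induce B).Walk a b) :
    ∃ q : G.Walk (a : V) (b : V), q.length = p.length ∧ ∀ w ∈ q.support, w ∈ B := by
  induction p with
  | nil =>
    refine ⟨SimpleGraph.Walk.nil, rfl, ?_⟩
    rename_i u
    intro w hw
    rw [SimpleGraph.Walk.support_nil, List.mem_singleton] at hw
    rw [hw]; exact u.2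
  | cons h p ih =>
    obtain ⟨q, hq, hsup⟩ := ih
    rename_i u v w
    refine ⟨SimpleGraph.Walk.cons (v := (v : V)) (by simpa using h) q, by simp [hq], ?_⟩
    intro w' hw'
    rw [SimpleGraph.Walk.support_cons, List.mem_cons] at hw'
    rcases hw' with rfl | hw'
    · exact u.2
    · exact hsup w' hw'

/-- branch sets in the walk form. -/
theorem RadiusLE.walk {V : Type*} {G : SimpleGraph V} {r : ℕ} {B : Set V} (h : RadiusLE G r B) :
    ∃ x ∈ B, ∀ y ∈ B, ∃ p : G.Walk x y, p.length ≤ r ∧ ∀ w ∈ p.support, w ∈ B := by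
  obtain ⟨c, hc⟩ := h
  refine ⟨c, c.2, fun y hy => ?_⟩
  obtain ⟨p, hp⟩ := hc ⟨y, hy⟩
  obtain ⟨q, hq, hsup⟩ := walk_of_induce p
  exact ⟨q, by rw [hq]; exact hp, hsup⟩

theorem nabla_le {V : Type*} (r : ℕ) (G : SimpleGraph V) (c : ℝ) (hc : 0 ≤ c)
    (h : ∀ (m : ℕ) (H : SimpleGraph (Fin m)) (B : Fin m → Set V),
        (∀ i j, i ≠ j → Disjoint (B i) (B j)) →
        (∀ i, ∃ x ∈ B i, ∀ y ∈ B i, ∃ p : G.Walk x y, p.length ≤ r ∧ ∀ w ∈ p.support, w ∈ B i) →
        (∀ i j, H.Adj i j → ∃ a ∈ B i, ∃ b ∈ B j, G.Adj a b) →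
        (H.edgeSet.ncard : ℝ) ≤ c * m) : nabla r G ≤ c := by
  unfold nabla
  apply Real.sSup_le _ hc
  rintro q ⟨k, H, hk, ⟨B, hB, hdisj, hadj⟩, rfl⟩
  have hk' : (0:ℝ) < k := by exact_mod_cast hk
  rw [div_le_iff₀ hk']
  exact h k H B hdisj (fun i => (hB i).walk) hadj

end Pool.Agent.SC
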