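import Pool.Agent.Lib_helper50.SC.Levels

set_option autoImplicit false

namespace Pool.Agent.SC

open Finset

/-- tail sums `y_j = Σ_{i+1 ≥ j} w_i`. -/
noncomputable def yF {V : Type*} {L : ℕ} (w : Fin L → V → ℝ) (j : ℕ) (v : V) : ℝ :=
  ∑ i : Fin L, if j ≤ (i : ℕ) + 1 then w i v else 0

theorem yF_nonneg {V : Type*} {L : ℕ} (w : Fin L → V → ℝ) (hw : ∀ j x, 0 ≤ w j x) (j : ℕ) (v : V) :
    0 ≤ yF w j v := by
  unfold yF
  refine Finset.sum_nonneg (fun i _ => ?_)
  split_ifs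
  · exact hw _ _
  · exact le_refl _

theorem yF_anti {V : Type*} {L : ℕ} (w : Fin L → V → ℝ) (hw : ∀ j x, 0 ≤ w j x) {j k : ℕ}
    (hjk : j ≤ k) (v : V) : yF w k v ≤ yF w j v := by
  unfold yF
  refine Finset.sum_le_sum (fun i _ => ?_)
  split_ifs with h1 h2
  · exact le_refl _
  · omega
  · exact hw _ _
  · exact le_refl _

theorem yF_step {V : Type*} {L : ℕ} (w : Fin L → V → ℝ) (j : Fin L) (v : V) :
    yF w ((j : ℕ) + 1) v = w j v + yF w ((j : ℕ) + 2) v := by
  unfold yF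
  have h1 : w j v = ∑ i : Fin L, if i = j then w i v else 0 := by simp
  rw [h1, ← Finset.sum_add_distrib]
  refine Finset.sum_congr rfl (fun i _ => ?_)
  by_cases h : i = j
  · subst h
    rw [if_pos (by omega), if_pos rfl, if_neg (by omega), add_zero]
  · have h' : (i : ℕ) ≠ (j : ℕ) := fun hh => h (Fin.ext hh)
    by_cases h2 : (j : ℕ) + 1 ≤ (i : ℕ) + 1
    · rw [if_pos h2, if_neg h, if_pos (by omega), zero_add]
    · rw [if_neg h2, if_neg h, if_neg (by omega), zero_add]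

theorem yF_top {V : Type*} {L : ℕ} (w : Fin L → V → ℝ) (v : V) : yF w (L + 1) v = 0 := by
  unfold yF
  refine Finset.sum_eq_zero (fun i _ => ?_)
  rw [if_neg (by have := i.2; omega)]

theorem nuF_le {V : Type*} {L : ℕ} (θ : ℝ) (hθ : 0 < θ) (w : Fin L → V → ℝ)
    (hw : ∀ j x, 0 ≤ w j x) (j : Fin L) (hj : (j : ℕ) ≠ 0) (v : V) :
    nuF θ w j v ≤ yF w j v / θ := by
  unfold nuF
  rw [if_neg hj]
  refine max_le (div_nonneg (yF_nonneg w hw _ _) hθ.le) (min_le_right _ _)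

theorem nuF_eq_one {V : Type*} {L : ℕ} (θ : ℝ) (hθ : 0 < θ) (w : Fin L → V → ℝ)
    (j : Fin L) (v : V) (h : (j : ℕ) = 0 ∨ θ ≤ yF w j v) :
    nuF θ w j v = 1 := by
  unfold nuF
  split_ifs with h0
  · rfl
  · rcases h with h | h
    · exact absurd h h0
    · have : 1 ≤ yF w j v / θ := by rwa [le_div_iff₀ hθ, one_mul]
      unfold yF at this
      rw [min_eq_left this]
      norm_num

theorem decay {V : Type*} [Fintype V] (η θ : ℝ) (hθ : 0 < θ) (hη : 0 ≤ η) (hηθ : 4 * η ≤ θ) :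
    ∃ (L : ℕ) (ε : ℝ), 0 < L ∧ 0 < ε ∧ ε ≤ 1 / 4 ∧
      ∀ w : Fin L → V → ℝ, (∀ j x, 0 ≤ w j x) →
      (∀ j, ∑ x, w j x ≤ η * (∑ v, nuF θ w j v) + ε) → ∀ v, yF w L v < θ := by
  set n : ℝ := (Fintype.card V : ℝ) with hn
  have hn0 : 0 ≤ n := by positivity
  -- choice of L
  obtain ⟨N, hN⟩ : ∃ N : ℕ, (1 / 2 : ℝ) ^ N * (2 * (η * n) + θ) < θ / 2 := by
    have h1 : 0 < 2 * (η * n) + θ := by positivity
    have h2 : 0 < (θ / 2) / (2 * (η * n) + θ) := by positivity
    obtain ⟨N, hN⟩ := exists_pow_lt_of_lt_one h2 (by norm_num : (1 / 2 : ℝ) < 1)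
    refine ⟨N, ?_⟩
    rwa [lt_div_iff₀ h1] at hN
  set L : ℕ := N + 2 with hL
  set ε : ℝ := min (1 / 4) (θ / (16 * 4 ^ L)) with hε
  have hεpos : 0 < ε := lt_min (by norm_num) (by positivity)
  have hε4 : 4 ^ L * ε ≤ θ / 16 := by
    have : ε ≤ θ / (16 * 4 ^ L) := min_le_right _ _
    calc 4 ^ L * ε ≤ 4 ^ L * (θ / (16 * 4 ^ L)) := by gcongr
      _ = θ / 16 := by field_simp
  refine ⟨L, ε, by omega, hεpos, min_le_left _ _, ?_⟩
  intro w hw hmass
  set m : ℕ → ℝ := fun j => ∑ v, yF w j v with hm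
  have hm0 : ∀ j, 0 ≤ m j := fun j => Finset.sum_nonneg (fun v _ => yF_nonneg w hw j v)
  have hstep : ∀ j : Fin L, m ((j : ℕ) + 1) = ∑ x, w j x + m ((j : ℕ) + 2) := by
    intro j
    simp only [hm]
    rw [← Finset.sum_add_distrib]
    exact Finset.sum_congr rfl (fun v _ => yF_step w j v)
  have htop : m (L + 1) = 0 := by
    simp only [hm]
    exact Finset.sum_eq_zero (fun v _ => yF_top w v)
  have hrec : ∀ j : ℕ, 1 ≤ j → j < L → m (j + 1) ≤ m (j + 2) + m j / 4 + ε := by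
    intro j hj1 hjL
    have h1 := hstep ⟨j, hjL⟩
    have h2 := hmass ⟨j, hjL⟩
    have h3 : ∑ v, nuF θ w ⟨j, hjL⟩ v ≤ m j / θ := by
      simp only [hm]
      rw [Finset.sum_div]
      exact Finset.sum_le_sum (fun v _ => nuF_le θ hθ w hw ⟨j, hjL⟩ (by simp; omega) v)
    have h4 : η * (m j / θ) ≤ m j / 4 := by
      have h5 := hm0 j
      have h6 : η / θ ≤ 1 / 4 := by
        rw [div_le_div_iff₀ hθ (by norm_num)]; linarith
      calc η * (m j / θ) = (η / θ) * m j := by ring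
        _ ≤ (1 / 4) * m j := by gcongr
        _ = m j / 4 := by ring
    have h7 : η * ∑ v, nuF θ w ⟨j, hjL⟩ v ≤ η * (m j / θ) := by gcongr
    simp only at h1
    linarith
  -- backward induction
  have hback : ∀ k : ℕ, k + 1 < L → m (L - k) ≤ m (L - k - 1) / 2 + 4 ^ k * ε := by
    intro k
    induction k with
    | zero =>
      intro h
      have h1 := hrec (L - 1) (by omega) (by omega)
      have e1 : L - 1 + 1 = L := by omega
      have e2 : L - 1 + 2 = L + 1 := by omega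
      rw [e1, e2, htop] at h1
      have h2 := hm0 (L - 1)
      simp only [Nat.sub_zero, pow_zero, one_mul]
      linarith
    | succ k ih =>
      intro h
      have h1 := ih (by omega)
      have h2 := hrec (L - k - 2) (by omega) (by omega)
      have e1 : L - k - 2 + 1 = L - k - 1 := by omega
      have e2 : L - k - 2 + 2 = L - k := by omega
      have e3 : L - (k + 1) = L - k - 1 := by omega
      have e4 : L - k - 1 - 1 = L - k - 2 := by omega
      rw [e1, e2] at h2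
      rw [e3, e4]
      have h3 : (1:ℝ) ≤ 4 ^ k := one_le_pow₀ (by norm_num)
      have h4 : (4:ℝ) ^ (k + 1) = 4 * 4 ^ k := by ring
      rw [h4]
      nlinarith
  have hdec : ∀ j : ℕ, 1 ≤ j → j < L → m (j + 1) ≤ m j / 2 + 4 ^ L * ε := by
    intro j hj1 hjL
    have h1 := hback (L - j - 1) (by omega)
    have e1 : L - (L - j - 1) = j + 1 := by omega
    rw [e1] at h1
    have e2 : j + 1 - 1 = j := by omega
    rw [e2] at h1
    have h2 : (4:ℝ) ^ (L - j - 1) ≤ 4 ^ L := pow_le_pow_right₀ (by norm_num) (by omega)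
    have h3 : (4:ℝ) ^ (L - j - 1) * ε ≤ 4 ^ L * ε := by gcongr
    linarith
  have hm1 : m 1 ≤ 2 * (η * n) + θ := by
    have h1 := hstep ⟨0, by omega⟩
    have h2 := hmass ⟨0, by omega⟩
    have h3 : ∑ v, nuF θ w ⟨0, by omega⟩ v ≤ n := by
      calc ∑ v, nuF θ w ⟨0, by omega⟩ v ≤ ∑ v : V, (1:ℝ) :=
            Finset.sum_le_sum (fun v _ => nuF_le_one θ w _ v)
        _ = n := by simp [hn]
    have h4 := hdec 1 (le_refl _) (by omega)
    have h5 : η * ∑ v, nuF θ w ⟨0, by omega⟩ v ≤ η * n := by gcongr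
    have h6 : ε ≤ 4 ^ L * ε := by
      have : (1:ℝ) ≤ 4 ^ L := one_le_pow₀ (by norm_num)
      nlinarith
    simp only [zero_add] at h1
    norm_num at h4
    linarith
  have hpow : ∀ k : ℕ, k + 1 ≤ L → m (k + 1) ≤ (1 / 2) ^ k * (2 * (η * n) + θ)
      + 2 * (4 ^ L * ε) := by
    intro k
    induction k with
    | zero =>
      intro _
      have : 0 ≤ 4 ^ L * ε := by positivity
      simp only [zero_add, pow_zero, one_mul]
      linarith
    | succ k ih =>
      intro hk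
      have h1 := ih (by omega)
      have h2 := hdec (k + 1) (by omega) (by omega)
      rw [pow_succ]
      linarith
  have hfin := hpow (N + 1) (by omega)
  have e1 : N + 1 + 1 = L := by omega
  rw [e1] at hfin
  have hlt : m L < θ := by
    have h1 : (1 / 2 : ℝ) ^ (N + 1) * (2 * (η * n) + θ) ≤ θ / 2 := by
      have h2 : (1 / 2 : ℝ) ^ (N + 1) ≤ (1 / 2) ^ N :=
        pow_le_pow_of_le_one (by norm_num) (by norm_num) (by omega)
      have h3 : 0 ≤ 2 * (η * n) + θ := by positivity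
      calc (1 / 2 : ℝ) ^ (N + 1) * (2 * (η * n) + θ) ≤ (1 / 2) ^ N * (2 * (η * n) + θ) := by gcongr
        _ ≤ θ / 2 := hN.le
    linarith
  intro v
  refine lt_of_le_of_lt ?_ hlt
  exact Finset.single_le_sum (f := fun v => yF w L v) (fun v _ => yF_nonneg w hw L v)
    (Finset.mem_univ v)

end Pool.Agent.SC
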