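import Mathlib

/-! Definitions for MP_9d6589_co: shallow minors, expansion, strong colouring numbers, shallow
brambles. -/

set_option autoImplicit false

namespace Pool.Agent.SC

universe u

/-- The vertex set `B` induces a connected subgraph of radius at most `r`: some vertex `c` of `B`
is joined to every vertex of `B` by a walk of length at most `r` inside `G[B]`. -/
def RadiusLE {V : Type*} (G : SimpleGraph V) (r : ℕ) (B : Set V) : Prop :=
  ∃ c : B, ∀ x : B, ∃ p : (G.induce B).Walk c x, p.length ≤ r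

/-- `H` is a depth-`r` minor of `G` (given by branch sets). -/
def IsShallowMinor {V W : Type*} (r : ℕ) (H : SimpleGraph W) (G : SimpleGraph V) : Prop :=
  ∃ B : W → Set V, (∀ i, RadiusLE G r (B i)) ∧ (∀ i j, i ≠ j → Disjoint (B i) (B j)) ∧
    ∀ i j, H.Adj i j → ∃ x ∈ B i, ∃ y ∈ B j, G.Adj x y

/-- `∇_r(G)`: the largest value of `|E(H)|/|V(H)|` over the depth-`r` minors `H` of `G`
(`0` if `G` has no vertices). -/
noncomputable def nabla {V : Type*} (r : ℕ) (G : SimpleGraph V) : ℝ :=
  sSup {q : ℝ | ∃ (k : ℕ) (H : SimpleGraph (Fin k)), 0 < k ∧ IsShallowMinor r H G ∧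
    q = (H.edgeSet.ncard : ℝ) / k}

/-- the vertices strongly `r`-reachable from `v` with respect to the linear order `o`. -/
def SReach {V : Type*} (G : SimpleGraph V) (r : ℕ) (o : LinearOrder V) (v : V) : Set V :=
  {u | u ≤ v ∧ ∃ p : G.Walk v u, p.IsPath ∧ p.length ≤ r ∧
    ∀ w ∈ p.support, w ≠ v → w ≠ u → v < w}

/-- the strong `r`-colouring number of `G`. -/
noncomputable def scol {V : Type*} (r : ℕ) (G : SimpleGraph V) : ℕ :=
  sInf {k : ℕ | ∃ o : LinearOrder V, ∀ v, (SReach G r o v).ncard ≤ k}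

/-- two vertex sets touch. -/
def Touch {V : Type*} (G : SimpleGraph V) (A B : Set V) : Prop :=
  (∃ x, x ∈ A ∧ x ∈ B) ∨ ∃ x ∈ A, ∃ y ∈ B, G.Adj x y

/-- a depth-`r` bramble. -/
def IsBramble {V : Type*} (r : ℕ) (G : SimpleGraph V) (F : Set (Set V)) : Prop :=
  (∀ B ∈ F, RadiusLE G r B) ∧ ∀ A ∈ F, ∀ B ∈ F, Touch G A B

/-- the order of a family of vertex sets: the least size of a set meeting every member. -/
noncomputable def famOrder {V : Type*} (F : Set (Set V)) : ℕ :=
  sInf {k : ℕ | ∃ X : Finset V, X.card = k ∧ ∀ B ∈ F, ∃ x ∈ X, x ∈ B}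

/-- the depth-`r` bramble number. -/
noncomputable def bn {V : Type*} (r : ℕ) (G : SimpleGraph V) : ℕ :=
  sSup {k : ℕ | ∃ F : Set (Set V), IsBramble r G F ∧ famOrder F = k}

/-- a class of finite graphs. -/
def GraphClass := ∀ (V : Type) [Finite V], SimpleGraph V → Prop

/-- the class has polynomial expansion. -/
def PolynomialExpansion (C : GraphClass) : Prop :=
  ∃ p : Polynomial ℝ, ∀ (V : Type) [Finite V] (G : SimpleGraph V), C V G →
    ∀ r : ℕ, nabla r G ≤ p.eval (r : ℝ)

/-! ### Tree systems -/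

/-- A rooted partial tree in `G` of height at most `ℓ`: a root, a parent function, a depth
function (with values in `Fin (ℓ+1)`), the set `W` of vertices of the tree, and a set `S` of
non-root targets in `W`. -/
structure TreeSys {V : Type*} (G : SimpleGraph V) (ℓ : ℕ) where
  root : V
  par : V → V
  dep : V → Fin (ℓ + 1)
  W : Finset V
  S : Finset V
  SW : S ⊆ W
  Spos : ∀ v ∈ S, 0 < (dep v : ℕ)
  root_eq : ∀ x ∈ W, (dep x : ℕ) = 0 → x = root
  par_mem : ∀ x ∈ W, 0 < (dep x : ℕ) → par x ∈ W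
  par_adj : ∀ x ∈ W, 0 < (dep x : ℕ) → G.Adj x (par x)
  par_dep : ∀ x ∈ W, 0 < (dep x : ℕ) → (dep (par x) : ℕ) + 1 = (dep x : ℕ)

/-- proper ancestors of `v` in the tree system (the vertices of the tree path from `v` to the root,
without `v` itself; the root is included). -/
def TreeSys.Q {V : Type*} [DecidableEq V] {G : SimpleGraph V} {ℓ : ℕ} (σ : TreeSys G ℓ) (v : V) :
    Finset V :=
  (Finset.range (σ.dep v : ℕ)).image (fun i => σ.par^[i + 1] v)

/-- Good demands for a finite set `Σ` of systems and a finite set `A` of targets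
(abstract version: `root`, `S`, `Q` are arbitrary functions). -/
noncomputable def goodD {ι V : Type*} (root : ι → V) (S : ι → Finset V) (Q : ι → V → Finset V)
    (T : Finset ι) (A : Finset V) : Finset (ι × V) := by
  classical
  exact (T ×ˢ A).filter (fun p => p.2 ∈ S p.1 ∧
    (∀ σ ∈ T, root σ = root p.1 → σ = p.1) ∧
    (∀ x ∈ Q p.1 p.2, x ∉ A) ∧
    (∀ σ ∈ T, ∀ v ∈ A, v ∈ S σ → root σ ≠ root p.1 → v ≠ p.2 →
      Disjoint (Q p.1 p.2) (Q σ v)))

end Pool.Agent.SC
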