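import Pool.Agent.Lib_helper50.SC.Main
import Pool.Agent.Lib_helper50.SC.Conv
import Pool.Agent.Lib_helper48.Brouwer

set_option autoImplicit false

namespace Pool.Agent.SC

open Finset

theorem brouwerCube : BrouwerCube.{0} := fun _ _ f hf hmap => Pool.Agent.Brouwer.brouwer_cube f hf hmap

/-- Main inequality: strong colouring numbers are polynomially bounded by `r` and `∇_r`. -/
theorem scol_le {V : Type} [Finite V] (G : SimpleGraph V) (r : ℕ) :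
    (scol r G : ℝ) ≤ 8192 * (r:ℝ) ^ 2 * (nabla r G + 1) ^ 2 + 3 :=
  scol_le_of_brouwer brouwerCube G r

/-- The bound for `∇_r ≤ c (r+1)^k` (natural number form). -/
theorem scol_le_pow {V : Type} [Finite V] (G : SimpleGraph V) (r c k : ℕ) (hr : 1 ≤ r)
    (h : nabla r G ≤ c * ((r:ℝ) + 1) ^ k) :
    scol r G ≤ (8192 * (c * 2 ^ k + 1) ^ 2 + 3) * r ^ (2 * k + 2) := by
  have h1 := scol_le G r
  have h0 := nabla_nonneg r G
  have hr1 : (1:ℝ) ≤ r := by exact_mod_cast hr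
  have h2 : ((r:ℝ) + 1) ^ k ≤ (2 * r) ^ k := by
    apply pow_le_pow_left₀ (by positivity)
    linarith
  have h3 : (1:ℝ) ≤ (r:ℝ) ^ k := one_le_pow₀ hr1
  have h4 : nabla r G + 1 ≤ (c * 2 ^ k + 1) * (r:ℝ) ^ k := by
    calc nabla r G + 1 ≤ c * ((r:ℝ) + 1) ^ k + 1 := by linarith
      _ ≤ c * (2 * r) ^ k + (r:ℝ) ^ k := by
          have : (c:ℝ) * ((r:ℝ) + 1) ^ k ≤ c * (2 * r) ^ k := by gcongr
          linarith
      _ = (c * 2 ^ k + 1) * (r:ℝ) ^ k := by rw [mul_pow]; ring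
  have h5 : (nabla r G + 1) ^ 2 ≤ ((c * 2 ^ k + 1) * (r:ℝ) ^ k) ^ 2 := by
    apply pow_le_pow_left₀ (by linarith) h4
  have h6 : (1:ℝ) ≤ (r:ℝ) ^ (2 * k + 2) := one_le_pow₀ hr1
  have h7 : (scol r G : ℝ) ≤ ((8192 * (c * 2 ^ k + 1) ^ 2 + 3) * r ^ (2 * k + 2) : ℕ) := by
    push_cast
    calc (scol r G : ℝ) ≤ 8192 * (r:ℝ) ^ 2 * (nabla r G + 1) ^ 2 + 3 := h1
      _ ≤ 8192 * (r:ℝ) ^ 2 * ((c * 2 ^ k + 1) * (r:ℝ) ^ k) ^ 2 + 3 * (r:ℝ) ^ (2 * k + 2) := by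
          have : 8192 * (r:ℝ) ^ 2 * (nabla r G + 1) ^ 2
              ≤ 8192 * (r:ℝ) ^ 2 * ((c * 2 ^ k + 1) * (r:ℝ) ^ k) ^ 2 := by gcongr
          linarith
      _ = (8192 * (c * 2 ^ k + 1) ^ 2 + 3) * (r:ℝ) ^ (2 * k + 2) := by ring
  exact_mod_cast h7

end Pool.Agent.SC
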