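import Mathlib

set_option autoImplicit false

namespace Pool.Agent.SC

open Finset

/-- T2. LP duality. -/
theorem lp_dual {V S : Type*} [Fintype V] [Fintype S] (a : S → ℝ) (l : S → V → ℝ)
    (M : ℝ) (hM : 0 < M)
    (hinf : ∀ w : V → ℝ, (∀ x, 0 ≤ w x) → ∑ x, w x ≤ M → ∃ s, 0 < a s - ∑ x, l s x * w x) :
    ∃ q : S → ℝ, (∀ s, 0 ≤ q s) ∧ (∀ x, ∑ s, q s * l s x ≤ 1) ∧ M ≤ ∑ s, q s * a s := by
  classical
  set C : Set (V → ℝ) := {w | (∀ x, 0 ≤ w x) ∧ ∑ x, w x ≤ M} with hC
  set F : (V → ℝ) → (S → ℝ) := fun w s => a s - ∑ x, l s x * w x with hF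
  have hFc : Continuous F := by
    rw [hF]; fun_prop
  have hCconv : Convex ℝ C := by
    intro w hw w' hw' p p' hp hp' hpp
    refine ⟨fun x => ?_, ?_⟩
    · simp only [Pi.add_apply, Pi.smul_apply, smul_eq_mul]
      have := hw.1 x
      have := hw'.1 x
      positivity
    · simp only [Pi.add_apply, Pi.smul_apply, smul_eq_mul, Finset.sum_add_distrib,
        ← Finset.mul_sum]
      calc p * ∑ x, w x + p' * ∑ x, w' x ≤ p * M + p' * M := by
            gcongr
            · exact hw.2
            · exact hw'.2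
        _ = M := by rw [← add_mul, hpp, one_mul]
  have hCcomp : IsCompact C := by
    refine IsCompact.of_isClosed_subset (isCompact_Icc (a := (0 : V → ℝ)) (b := fun _ => M)) ?_ ?_
    · have h1 : IsClosed {w : V → ℝ | ∀ x, 0 ≤ w x} := by
        have : {w : V → ℝ | ∀ x, 0 ≤ w x} = ⋂ x, {w : V → ℝ | 0 ≤ w x} := by
          ext; simp
        rw [this]
        exact isClosed_iInter (fun x => isClosed_le continuous_const (continuous_apply x))
      have h2 : IsClosed {w : V → ℝ | ∑ x, w x ≤ M} :=
        isClosed_le (continuous_finsetSum _ (fun x _ => continuous_apply x)) continuous_const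
      exact h1.inter h2
    · intro w hw
      refine ⟨fun x => hw.1 x, fun x => ?_⟩
      exact le_trans (Finset.single_le_sum (f := w) (fun y _ => hw.1 y) (Finset.mem_univ x)) hw.2
  have hK : IsCompact (F '' C) := hCcomp.image hFc
  have hKconv : Convex ℝ (F '' C) := by
    rintro _ ⟨w, hw, rfl⟩ _ ⟨w', hw', rfl⟩ p p' hp hp' hpp
    refine ⟨p • w + p' • w', hCconv hw hw' hp hp' hpp, ?_⟩
    funext s
    simp only [hF, Pi.add_apply, Pi.smul_apply, smul_eq_mul]
    have : ∑ x, l s x * (p * w x + p' * w' x) = p * ∑ x, l s x * w x + p' * ∑ x, l s x * w' x := by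
      rw [Finset.mul_sum, Finset.mul_sum, ← Finset.sum_add_distrib]
      refine Finset.sum_congr rfl (fun x _ => by ring)
    rw [this]
    have h : a s = p * a s + p' * a s := by rw [← add_mul, hpp, one_mul]
    linarith
  set N : Set (S → ℝ) := {z | ∀ s, z s ≤ 0} with hN
  have hNcl : IsClosed N := by
    have : N = ⋂ s, {z : S → ℝ | z s ≤ 0} := by ext; simp [hN]
    rw [this]
    exact isClosed_iInter (fun x => isClosed_le (continuous_apply x) continuous_const)
  have hNconv : Convex ℝ N := by
    intro w hw w' hw' p p' hp hp' hpp s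
    simp only [Pi.add_apply, Pi.smul_apply, smul_eq_mul]
    have h1 := hw s
    have h2 := hw' s
    nlinarith
  have hdisj : Disjoint (F '' C) N := by
    rw [Set.disjoint_left]
    rintro _ ⟨w, hw, rfl⟩ hz
    obtain ⟨s, hs⟩ := hinf w hw.1 hw.2
    exact absurd (hz s) (not_le.mpr hs)
  obtain ⟨f, u, v, hfu, huv, hfv⟩ :=
    geometric_hahn_banach_compact_closed hKconv hK hNconv hNcl hdisj
  have hrep : ∀ z : S → ℝ, f z = ∑ s, z s * f (Pi.single s 1) := by
    intro z
    have : z = ∑ s, z s • (Pi.single s (1:ℝ) : S → ℝ) := by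
      funext t
      simp [Finset.sum_apply, Pi.single_apply]
    conv_lhs => rw [this]
    rw [map_sum]
    refine Finset.sum_congr rfl (fun s _ => by rw [map_smul, smul_eq_mul])
  set q' : S → ℝ := fun s => - f (Pi.single s 1) with hq'
  have hv0 : v < 0 := by
    have := hfv 0 (fun s => le_refl _)
    simpa using this
  have hq'0 : ∀ s, 0 ≤ q' s := by
    intro s
    by_contra hneg
    push Not at hneg
    have hpos : 0 < f (Pi.single s 1) := by simp only [hq'] at hneg; linarith
    -- choose t large
    obtain ⟨t, ht⟩ : ∃ t : ℝ, 0 ≤ t ∧ -t * f (Pi.single s 1) ≤ v := by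
      refine ⟨(-v) / f (Pi.single s 1), by apply div_nonneg <;> linarith, ?_⟩
      have : -((-v) / f (Pi.single s 1)) * f (Pi.single s 1) = v := by
        field_simp
      exact this.le
    have hmem : (-t) • (Pi.single s (1:ℝ) : S → ℝ) ∈ N := by
      intro s'
      simp only [Pi.smul_apply, smul_eq_mul, Pi.single_apply]
      split_ifs <;> linarith [ht.1]
    have := hfv _ hmem
    rw [map_smul, smul_eq_mul] at this
    linarith [ht.2]
  have key : ∀ w ∈ C, 0 < ∑ s, q' s * (a s - ∑ x, l s x * w x) := by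
    intro w hw
    have h1 := hfu _ ⟨w, hw, rfl⟩
    rw [hrep] at h1
    have h2 : ∑ s, q' s * (a s - ∑ x, l s x * w x) = - ∑ s, F w s * f (Pi.single s 1) := by
      rw [← Finset.sum_neg_distrib]
      refine Finset.sum_congr rfl (fun s _ => ?_)
      simp only [hq', hF]; ring
    rw [h2]; linarith
  have hc0 : 0 < ∑ s, q' s * a s := by
    have := key 0 ⟨fun x => le_refl _, by simpa using hM.le⟩
    simpa using this
  set c0 := ∑ s, q' s * a s with hc0def
  refine ⟨fun s => q' s * (M / c0), fun s => mul_nonneg (hq'0 s) (by positivity), fun x => ?_, ?_⟩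
  · have hx := key (fun y => if y = x then M else 0) ⟨fun y => by
        show (0:ℝ) ≤ if y = x then M else 0
        split_ifs <;> linarith, by simp⟩
    simp only [mul_ite, mul_zero, Finset.sum_ite_eq', Finset.mem_univ, if_true] at hx
    have e1 : ∑ s, q' s * (a s - l s x * M) = c0 - M * ∑ s, q' s * l s x := by
      rw [hc0def, Finset.mul_sum, ← Finset.sum_sub_distrib]
      refine Finset.sum_congr rfl (fun s _ => by ring)
    rw [e1] at hx
    have e2 : ∑ s, q' s * (M / c0) * l s x = (M * ∑ s, q' s * l s x) / c0 := by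
      rw [Finset.mul_sum, Finset.sum_div]
      refine Finset.sum_congr rfl (fun s _ => by ring)
    rw [e2, div_le_one hc0]
    linarith
  · have e3 : ∑ s, q' s * (M / c0) * a s = M := by
      have : ∑ s, q' s * (M / c0) * a s = (M / c0) * c0 := by
        rw [hc0def, Finset.mul_sum]
        refine Finset.sum_congr rfl (fun s _ => by ring)
      rw [this]; field_simp
    rw [e3]

end Pool.Agent.SC
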