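import Pool.Agent.Lib_helper50.SC.Defs

set_option autoImplicit false

namespace Pool.Agent.SC

open Finset

/-- Statement of Brouwer's theorem on cubes (universe `u`). -/
def BrouwerCube.{u} : Prop := ∀ (ι : Type u) [Fintype ι] (f : (ι → ℝ) → (ι → ℝ)),
    ContinuousOn f (Set.Icc 0 1) → Set.MapsTo f (Set.Icc 0 1) (Set.Icc 0 1) →
    ∃ x ∈ Set.Icc (0 : ι → ℝ) 1, f x = x

/-- the level weights: `1` for level `0`, and the truncation of `θ⁻¹ Σ_{i ≥ j-1} w_i` for
level `j ≥ 1`. -/
noncomputable def nuF {V : Type*} {L : ℕ} (θ : ℝ) (w : Fin L → V → ℝ) (j : Fin L) (v : V) : ℝ :=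
  if (j : ℕ) = 0 then 1 else
    max 0 (min 1 ((∑ i : Fin L, if (j : ℕ) ≤ (i : ℕ) + 1 then w i v else 0) / θ))

theorem nuF_nonneg {V : Type*} {L : ℕ} (θ : ℝ) (w : Fin L → V → ℝ) (j : Fin L) (v : V) :
    0 ≤ nuF θ w j v := by
  unfold nuF
  split_ifs
  · norm_num
  · exact le_max_left _ _

theorem nuF_le_one {V : Type*} {L : ℕ} (θ : ℝ) (w : Fin L → V → ℝ) (j : Fin L) (v : V) :
    nuF θ w j v ≤ 1 := by
  unfold nuF
  split_ifs
  · exact le_refl _
  · exact max_le (by norm_num) (min_le_left _ _)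

theorem continuous_nuF {V : Type*} [Fintype V] {L : ℕ} (θ : ℝ) (j : Fin L) (v : V) :
    Continuous (fun w : Fin L → V → ℝ => nuF θ w j v) := by
  unfold nuF
  split_ifs with h
  · exact continuous_const
  · apply Continuous.max continuous_const
    apply Continuous.min continuous_const
    apply Continuous.div_const
    apply continuous_finsetSum
    intro i _
    split_ifs
    · exact (continuous_apply v).comp (continuous_apply i)
    · exact continuous_const

theorem exists_levels (hBr : BrouwerCube.{0}) {V : Type} {ι : Type*} [Fintype V] [DecidableEq V]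
    [Fintype ι] (S : ι → Finset V) (Q : ι → V → Finset V) (K η γ θ : ℝ) (hη : 0 ≤ η)
    (hsep : ∀ ν : V → ℝ, (∀ v, 0 ≤ ν v) → (∀ v, ν v ≤ 1) →
      ∃ w : V → ℝ, (∀ x, 0 ≤ w x) ∧ ∑ x, w x ≤ η * ∑ v, ν v ∧
      ∀ σ, ∑ v ∈ S σ, ν v * (1 / 2 - γ * (Q σ v).card - ∑ x ∈ Q σ v, w x) ≤ K)
    (L : ℕ) (ε : ℝ) (hε : 0 < ε) :
    ∃ w : Fin L → V → ℝ, (∀ j x, 0 ≤ w j x) ∧
      (∀ j, ∑ x, w j x ≤ η * (∑ v, nuF θ w j v) + ε) ∧
      ∀ j σ, ∑ v ∈ S σ, nuF θ w j v * (1 / 2 - γ * (Q σ v).card - ∑ x ∈ Q σ v, w j x) ≤ K + ε := by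
  set t : (Fin L → V → ℝ) → Set (Fin L → V → ℝ) := fun w => {w' | (∀ j x, 0 ≤ w' j x) ∧
      (∀ j, ∑ x, w' j x < η * (∑ v, nuF θ w j v) + ε) ∧
      ∀ j σ, ∑ v ∈ S σ, nuF θ w j v * (1 / 2 - γ * (Q σ v).card - ∑ x ∈ Q σ v, w' j x) < K + ε}
    with ht
  have hconv : ∀ w, Convex ℝ (t w) := by
    intro w a ha b hb p p' hp hp' hpp
    refine ⟨fun j x => ?_, fun j => ?_, fun j σ => ?_⟩
    · have h1 := ha.1 j x
      have h2 := hb.1 j x
      simp only [Pi.add_apply, Pi.smul_apply, smul_eq_mul]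
      positivity
    · have h1 := ha.2.1 j
      have h2 := hb.2.1 j
      simp only [Pi.add_apply, Pi.smul_apply, smul_eq_mul]
      rw [Finset.sum_add_distrib, ← Finset.mul_sum, ← Finset.mul_sum]
      set R := η * (∑ v, nuF θ w j v) + ε
      have h3 : p * R + p' * R = R := by rw [← add_mul, hpp, one_mul]
      rcases eq_or_lt_of_le hp with h0 | h0
      · have : p' = 1 := by linarith
        rw [← h0, this]; linarith
      · nlinarith
    · have h1 := ha.2.2 j σ
      have h2 := hb.2.2 j σ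
      set R := K + ε
      have h3 : p * R + p' * R = R := by rw [← add_mul, hpp, one_mul]
      have e : ∑ v ∈ S σ, nuF θ w j v * (1 / 2 - γ * (Q σ v).card -
          ∑ x ∈ Q σ v, (p • a + p' • b) j x)
          = p * (∑ v ∈ S σ, nuF θ w j v * (1 / 2 - γ * (Q σ v).card - ∑ x ∈ Q σ v, a j x))
          + p' * (∑ v ∈ S σ, nuF θ w j v * (1 / 2 - γ * (Q σ v).card - ∑ x ∈ Q σ v, b j x)) := by
        rw [Finset.mul_sum, Finset.mul_sum, ← Finset.sum_add_distrib]
        refine Finset.sum_congr rfl (fun v _ => ?_)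
        simp only [Pi.add_apply, Pi.smul_apply, smul_eq_mul]
        rw [Finset.sum_add_distrib, ← Finset.mul_sum, ← Finset.mul_sum]
        have : p' = 1 - p := by linarith
        rw [this]; ring
      rw [e]
      rcases eq_or_lt_of_le hp with h0 | h0
      · have : p' = 1 := by linarith
        rw [← h0, this]; linarith
      · nlinarith
  have hloc : ∀ w, ∃ c : Fin L → V → ℝ, ∀ᶠ w'' in nhds w, c ∈ t w'' := by
    intro w
    choose c hc0 hc1 hc2 using fun j : Fin L =>
      hsep (nuF θ w j) (nuF_nonneg θ w j) (nuF_le_one θ w j)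
    refine ⟨c, ?_⟩
    have ev1 : ∀ j : Fin L, ∀ᶠ w'' in nhds w, ∑ x, c j x < η * (∑ v, nuF θ w'' j v) + ε := by
      intro j
      have hcont : Continuous (fun w'' : Fin L → V → ℝ => η * (∑ v, nuF θ w'' j v) + ε) := by
        have := fun v => continuous_nuF (V := V) (L := L) θ j v
        fun_prop
      have hlt : ∑ x, c j x < η * (∑ v, nuF θ w j v) + ε := by
        have := hc1 j
        linarith
      exact (hcont.tendsto w).eventually (lt_mem_nhds hlt)
    have ev2 : ∀ (j : Fin L) (σ : ι), ∀ᶠ w'' in nhds w,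
        ∑ v ∈ S σ, nuF θ w'' j v * (1 / 2 - γ * (Q σ v).card - ∑ x ∈ Q σ v, c j x) < K + ε := by
      intro j σ
      have hcont : Continuous (fun w'' : Fin L → V → ℝ =>
          ∑ v ∈ S σ, nuF θ w'' j v * (1 / 2 - γ * (Q σ v).card - ∑ x ∈ Q σ v, c j x)) := by
        have := fun v => continuous_nuF (V := V) (L := L) θ j v
        fun_prop
      have hlt : ∑ v ∈ S σ, nuF θ w j v * (1 / 2 - γ * (Q σ v).card - ∑ x ∈ Q σ v, c j x)
          < K + ε := by
        have := hc2 j σ
        linarith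
      exact (hcont.tendsto w).eventually (gt_mem_nhds hlt)
    have ev1' := Filter.eventually_all.mpr ev1
    have ev2' := Filter.eventually_all.mpr (fun j => Filter.eventually_all.mpr (ev2 j))
    filter_upwards [ev1', ev2'] with w'' h1 h2
    exact ⟨hc0, h1, h2⟩
  obtain ⟨g, hg⟩ := exists_continuous_forall_mem_convex_of_local_const hconv hloc
  -- the box
  set B : ℝ := η * Fintype.card V + ε with hB
  have hBpos : 0 < B := by positivity
  have hgB : ∀ w j x, g w j x ≤ B := by
    intro w j x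
    have h1 := (hg w).2.1 j
    have h2 := (hg w).1
    calc g w j x ≤ ∑ x, g w j x :=
          Finset.single_le_sum (f := fun x => g w j x) (fun x _ => h2 j x) (Finset.mem_univ x)
      _ ≤ η * (∑ v, nuF θ w j v) + ε := h1.le
      _ ≤ η * (∑ v : V, (1:ℝ)) + ε := by
          gcongr with v _
          exact nuF_le_one θ w j v
      _ = B := by simp [hB]
  obtain ⟨z, hz, hfix⟩ := hBr (Fin L × V)
    (fun z p => g (fun j x => B * z (j, x)) p.1 p.2 / B) (by
      apply Continuous.continuousOn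
      apply continuous_pi
      intro p
      apply Continuous.div_const
      have h1 : Continuous (fun z : Fin L × V → ℝ => (fun (j : Fin L) (x : V) => B * z (j, x))) := by
        fun_prop
      have h2 := g.continuous.comp h1
      exact (continuous_apply p.2).comp ((continuous_apply p.1).comp h2)) (by
      intro z _
      refine ⟨fun p => ?_, fun p => ?_⟩
      · exact div_nonneg ((hg _).1 _ _) hBpos.le
      · show g (fun j x => B * z (j, x)) p.1 p.2 / B ≤ 1
        rw [div_le_one hBpos]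
        exact hgB _ _ _)
  set w : Fin L → V → ℝ := fun j x => B * z (j, x) with hw
  have hgw : g w = w := by
    funext j x
    have := congrFun hfix (j, x)
    simp only at this
    rw [div_eq_iff hBpos.ne'] at this
    rw [this, hw]
    simp only
    ring
  have hmem := hg w
  rw [hgw] at hmem
  exact ⟨w, hmem.1, fun j => (hmem.2.1 j).le, fun j σ => (hmem.2.2 j σ).le⟩

end Pool.Agent.SC
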