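import Pool.Agent.Lib_helper50.SC.Defs

/-! T4 of helper50's MP_9d6589_co project: the deterministic minor construction. -/

set_option autoImplicit false

namespace Pool.Agent.SC

open Finset

namespace Minor

/-- a walk inside an induced subgraph from a sequence of adjacent vertices -/
theorem walk_of_seq {V : Type*} {G : SimpleGraph V} {B : Set V} (f : ℕ → V) (n : ℕ)
    (hB : ∀ i ≤ n, f i ∈ B) (hadj : ∀ i < n, G.Adj (f i) (f (i + 1))) :
    ∃ p : (G.induce B).Walk ⟨f 0, hB 0 (Nat.zero_le _)⟩ ⟨f n, hB n le_rfl⟩, p.length ≤ n := by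
  induction n with
  | zero => exact ⟨SimpleGraph.Walk.nil, by simp⟩
  | succ n ih =>
    obtain ⟨p, hp⟩ := ih (fun i hi => hB i (by omega)) (fun i hi => hadj i (by omega))
    have hadj' : (G.induce B).Adj ⟨f n, hB n (by omega)⟩ ⟨f (n + 1), hB (n + 1) le_rfl⟩ := by
      simpa using hadj n (by omega)
    refine ⟨p.concat hadj', ?_⟩
    simp only [SimpleGraph.Walk.length_concat]
    omega

variable {V : Type*} {G : SimpleGraph V} {ℓ : ℕ}

theorem iter_mem (σ : TreeSys G ℓ) {v : V} (hv : v ∈ σ.W) :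
    ∀ i, i ≤ (σ.dep v : ℕ) → σ.par^[i] v ∈ σ.W ∧ (σ.dep (σ.par^[i] v) : ℕ) + i = (σ.dep v : ℕ) := by
  intro i
  induction i with
  | zero => intro _; exact ⟨by simpa using hv, by simp⟩
  | succ i ih =>
    intro hi
    obtain ⟨h1, h2⟩ := ih (by omega)
    have hpos : 0 < (σ.dep (σ.par^[i] v) : ℕ) := by omega
    rw [Function.iterate_succ_apply']
    refine ⟨σ.par_mem _ h1 hpos, ?_⟩
    have := σ.par_dep _ h1 hpos
    omega

theorem iter_adj (σ : TreeSys G ℓ) {v : V} (hv : v ∈ σ.W) {i : ℕ} (hi : i < (σ.dep v : ℕ)) :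
    G.Adj (σ.par^[i] v) (σ.par^[i + 1] v) := by
  obtain ⟨h1, h2⟩ := iter_mem σ hv i hi.le
  rw [Function.iterate_succ_apply']
  exact σ.par_adj _ h1 (by omega)

theorem iter_root (σ : TreeSys G ℓ) {v : V} (hv : v ∈ σ.W) :
    σ.par^[(σ.dep v : ℕ)] v = σ.root := by
  obtain ⟨h1, h2⟩ := iter_mem σ hv _ le_rfl
  exact σ.root_eq _ h1 (by omega)

variable [DecidableEq V]

theorem mem_Q {σ : TreeSys G ℓ} {v z : V} :
    z ∈ σ.Q v ↔ ∃ i < (σ.dep v : ℕ), σ.par^[i + 1] v = z := by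
  simp [TreeSys.Q]

/-- the good demands -/
noncomputable abbrev D (T : Finset (TreeSys G ℓ)) (A : Finset V) : Finset (TreeSys G ℓ × V) :=
  goodD (fun σ : TreeSys G ℓ => σ.root) (fun σ => σ.S) (fun σ v => σ.Q v) T A

theorem mem_D {T : Finset (TreeSys G ℓ)} {A : Finset V} {p : TreeSys G ℓ × V} :
    p ∈ D T A ↔ (p.1 ∈ T ∧ p.2 ∈ A) ∧ p.2 ∈ p.1.S ∧
    (∀ σ ∈ T, σ.root = p.1.root → σ = p.1) ∧
    (∀ x ∈ p.1.Q p.2, x ∉ A) ∧
    (∀ σ ∈ T, ∀ v ∈ A, v ∈ σ.S → σ.root ≠ p.1.root → v ≠ p.2 →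
      Disjoint (p.1.Q p.2) (σ.Q v)) := by
  simp [D, goodD]

/-- target-type vertices -/
def TT (T : Finset (TreeSys G ℓ)) (A : Finset V) (x : V) : Prop :=
  ∃ p ∈ D T A, ∃ q ∈ D T A, x ∈ p.1.Q p.2 ∧ x ∈ q.1.Q q.2 ∧ p.1.root ≠ q.1.root

theorem tgt_eq_of_root_ne {T : Finset (TreeSys G ℓ)} {A : Finset V} {x : V}
    {p q : TreeSys G ℓ × V} (hp : p ∈ D T A) (hq : q ∈ D T A) (hxp : x ∈ p.1.Q p.2)
    (hxq : x ∈ q.1.Q q.2) (hr : p.1.root ≠ q.1.root) : p.2 = q.2 := by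
  by_contra hne
  have h1 := (mem_D.1 hp).2.2.2.2 q.1 (mem_D.1 hq).1.1 q.2 (mem_D.1 hq).1.2 (mem_D.1 hq).2.1
    (Ne.symm hr) (Ne.symm hne)
  exact Finset.disjoint_left.1 h1 hxp hxq

theorem tgt_eq {T : Finset (TreeSys G ℓ)} {A : Finset V} {x : V} (hx : TT T A x)
    {p q : TreeSys G ℓ × V} (hp : p ∈ D T A) (hq : q ∈ D T A) (hxp : x ∈ p.1.Q p.2)
    (hxq : x ∈ q.1.Q q.2) : p.2 = q.2 := by
  obtain ⟨a, ha, b, hb, hxa, hxb, hab⟩ := hx
  have hab2 := tgt_eq_of_root_ne ha hb hxa hxb hab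
  have key : ∀ r ∈ D T A, x ∈ r.1.Q r.2 → r.2 = a.2 := by
    intro r hr hxr
    by_cases h : r.1.root = a.1.root
    · rw [hab2]
      exact tgt_eq_of_root_ne hr hb hxr hxb (h ▸ hab)
    · exact tgt_eq_of_root_ne hr ha hxr hxa h
  rw [key p hp hxp, key q hq hxq]

/-- some ancestor-or-self of `z` is target-type -/
def Bad (T : Finset (TreeSys G ℓ)) (A : Finset V) (σ : TreeSys G ℓ) (z : V) : Prop :=
  ∃ j ≤ (σ.dep z : ℕ), TT T A (σ.par^[j] z)

/-- branch set of a root -/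
def CS (T : Finset (TreeSys G ℓ)) (A : Finset V) (σ : TreeSys G ℓ) : Set V :=
  {z | ∃ v, (σ, v) ∈ D T A ∧ z ∈ σ.Q v ∧ ¬ Bad T A σ z}

/-- branch set of a target -/
def RS (T : Finset (TreeSys G ℓ)) (A : Finset V) (v : V) : Set V :=
  {z | z = v ∨ ∃ σ, (σ, v) ∈ D T A ∧ z ∈ σ.Q v ∧ Bad T A σ z}

section
variable {T : Finset (TreeSys G ℓ)} {A : Finset V}

theorem mem_W_of_mem_D {σ : TreeSys G ℓ} {v : V} (h : (σ, v) ∈ D T A) : v ∈ σ.W :=
  σ.SW (mem_D.1 h).2.1

theorem dep_pos_of_mem_D {σ : TreeSys G ℓ} {v : V} (h : (σ, v) ∈ D T A) : 0 < (σ.dep v : ℕ) :=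
  σ.Spos v (mem_D.1 h).2.1

theorem disj_CC {σ τ : TreeSys G ℓ} (h : σ.root ≠ τ.root) :
    Disjoint (CS T A σ) (CS T A τ) := by
  rw [Set.disjoint_left]
  rintro z ⟨v, hv, hzv, hb⟩ ⟨w, hw, hzw, -⟩
  exact hb ⟨0, Nat.zero_le _, (σ, v), hv, (τ, w), hw, hzv, hzw, h⟩

/-- two good demands at the same root have the same system -/
theorem sys_eq {σ τ : TreeSys G ℓ} {v w : V} (hσ : (σ, v) ∈ D T A) (hτ : (τ, w) ∈ D T A)
    (h : σ.root = τ.root) : σ = τ :=
  (mem_D.1 hτ).2.2.1 σ (mem_D.1 hσ).1.1 h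

theorem disj_CR {σ : TreeSys G ℓ} {v : V} (hv : v ∈ A) : Disjoint (CS T A σ) (RS T A v) := by
  rw [Set.disjoint_left]
  rintro z ⟨w, hw, hzw, hb⟩ (rfl | ⟨τ, hτ, hzτ, hb'⟩)
  · exact (mem_D.1 hw).2.2.2.1 z hzw hv
  · by_cases h : σ.root = τ.root
    · obtain rfl := sys_eq hw hτ h
      exact hb hb'
    · exact hb ⟨0, Nat.zero_le _, (σ, w), hw, (τ, v), hτ, hzw, hzτ, h⟩

/-- ancestors of a vertex of `Q v` are in `Q v` -/
theorem anc_mem_Q {σ : TreeSys G ℓ} {v z : V} (hv : v ∈ σ.W) (hz : z ∈ σ.Q v) {j : ℕ}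
    (hj : j ≤ (σ.dep z : ℕ)) : σ.par^[j] z ∈ σ.Q v := by
  obtain ⟨i, hi, rfl⟩ := mem_Q.1 hz
  have h2 := (iter_mem σ hv (i + 1) (by omega)).2
  refine mem_Q.2 ⟨j + i, by omega, ?_⟩
  rw [← Function.iterate_add_apply]
  rfl

theorem disj_RR {v w : V} (hv : v ∈ A) (hw : w ∈ A) (hvw : v ≠ w) :
    Disjoint (RS T A v) (RS T A w) := by
  rw [Set.disjoint_left]
  rintro z (rfl | ⟨σ, hσ, hzσ, hb⟩) (rfl | ⟨τ, hτ, hzτ, hb'⟩)
  · exact hvw rfl
  · exact (mem_D.1 hτ).2.2.2.1 z hzτ hv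
  · exact (mem_D.1 hσ).2.2.2.1 z hzσ hw
  · by_cases h : σ.root = τ.root
    · obtain rfl := sys_eq hσ hτ h
      obtain ⟨j, hj, hx⟩ := hb
      exact hvw (tgt_eq hx hσ hτ (anc_mem_Q (mem_W_of_mem_D hσ) hzσ hj)
        (anc_mem_Q (mem_W_of_mem_D hτ) hzτ hj))
    · exact hvw (tgt_eq_of_root_ne hσ hτ hzσ hzτ h)

theorem radius_RS (v : V) : RadiusLE G ℓ (RS T A v) := by
  refine ⟨⟨v, Or.inl rfl⟩, ?_⟩
  rintro ⟨z, hz⟩
  rcases hz with rfl | ⟨σ, hσ, hzσ, hb⟩
  · exact ⟨SimpleGraph.Walk.nil, by simp⟩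
  · obtain ⟨i, hi, hiz⟩ := mem_Q.1 hzσ
    have hvW := mem_W_of_mem_D hσ
    have hB : ∀ k ≤ i + 1, σ.par^[k] v ∈ RS T A v := by
      intro k hk
      rcases Nat.eq_zero_or_pos k with rfl | hkpos
      · exact Or.inl rfl
      · obtain ⟨k, rfl⟩ : ∃ k', k = k' + 1 := ⟨k - 1, by omega⟩
        refine Or.inr ⟨σ, hσ, mem_Q.2 ⟨k, by omega, rfl⟩, ?_⟩
        obtain ⟨j, hj, hx⟩ := hb
        have h1 := (iter_mem σ hvW (i + 1) (by omega)).2
        have h2 := (iter_mem σ hvW (k + 1) (by omega)).2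
        rw [hiz] at h1
        refine ⟨j + (i - k), by omega, ?_⟩
        have : σ.par^[j + (i - k)] (σ.par^[k + 1] v) = σ.par^[j] z := by
          rw [← hiz, ← Function.iterate_add_apply, ← Function.iterate_add_apply]
          congr 1
          omega
        rw [this]
        exact hx
    obtain ⟨p, hp⟩ := walk_of_seq (G := G) (B := RS T A v) (fun k => σ.par^[k] v) (i + 1) hB
      (fun k hk => iter_adj σ hvW (by omega))
    have hlen : i + 1 ≤ ℓ := by have := (σ.dep v).2; omega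
    subst hiz
    exact ⟨p, le_trans hp hlen⟩

theorem root_mem_CS {σ : TreeSys G ℓ} {v w : V} (hv : (σ, v) ∈ D T A) (hw : (σ, w) ∈ D T A)
    (hvw : v ≠ w) : σ.root ∈ CS T A σ := by
  have hvW := mem_W_of_mem_D hv
  have hwW := mem_W_of_mem_D hw
  have h1 : σ.root ∈ σ.Q v := by
    refine mem_Q.2 ⟨(σ.dep v : ℕ) - 1, by have := dep_pos_of_mem_D hv; omega, ?_⟩
    have : (σ.dep v : ℕ) - 1 + 1 = (σ.dep v : ℕ) := by have := dep_pos_of_mem_D hv; omega
    rw [this, iter_root σ hvW]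
  have h2 : σ.root ∈ σ.Q w := by
    refine mem_Q.2 ⟨(σ.dep w : ℕ) - 1, by have := dep_pos_of_mem_D hw; omega, ?_⟩
    have : (σ.dep w : ℕ) - 1 + 1 = (σ.dep w : ℕ) := by have := dep_pos_of_mem_D hw; omega
    rw [this, iter_root σ hwW]
  refine ⟨v, hv, h1, ?_⟩
  rintro ⟨j, hj, hx⟩
  have hd : (σ.dep σ.root : ℕ) = 0 := by
    have := (iter_mem σ hvW _ le_rfl).2
    rw [iter_root σ hvW] at this
    omega
  obtain rfl : j = 0 := by omega
  exact hvw (tgt_eq hx hv hw h1 h2)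

theorem radius_CS {σ : TreeSys G ℓ} {v w : V} (hv : (σ, v) ∈ D T A) (hw : (σ, w) ∈ D T A)
    (hvw : v ≠ w) : RadiusLE G ℓ (CS T A σ) := by
  refine ⟨⟨σ.root, root_mem_CS hv hw hvw⟩, ?_⟩
  rintro ⟨z, u, hu, hz, hb⟩
  have huW := mem_W_of_mem_D hu
  obtain ⟨i, hi, hiz⟩ := mem_Q.1 hz
  have hzW : z ∈ σ.W := by
    rw [← hiz]; exact (iter_mem σ huW (i + 1) (by omega)).1
  have hB : ∀ k ≤ (σ.dep z : ℕ), σ.par^[k] z ∈ CS T A σ := by
    intro k hk
    refine ⟨u, hu, anc_mem_Q huW hz hk, ?_⟩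
    rintro ⟨j, hj, hx⟩
    have h1 := (iter_mem σ hzW k hk).2
    refine hb ⟨j + k, by omega, ?_⟩
    rw [Function.iterate_add_apply]
    exact hx
  obtain ⟨p, hp⟩ := walk_of_seq (G := G) (B := CS T A σ) (fun k => σ.par^[k] z) (σ.dep z : ℕ) hB
    (fun k hk => iter_adj σ hzW hk)
  have hlen : (σ.dep z : ℕ) ≤ ℓ := by have := (σ.dep z).2; omega
  have hroot : (⟨σ.par^[(σ.dep z : ℕ)] z, hB _ le_rfl⟩ : CS T A σ)
      = ⟨σ.root, root_mem_CS hv hw hvw⟩ := by
    apply Subtype.ext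
    exact iter_root σ hzW
  refine ⟨(p.reverse).copy hroot (Subtype.ext rfl), ?_⟩
  rw [SimpleGraph.Walk.length_copy, SimpleGraph.Walk.length_reverse]
  exact le_trans hp hlen

theorem adj_CR {σ : TreeSys G ℓ} {v w : V} (hv : (σ, v) ∈ D T A) (hw : (σ, w) ∈ D T A)
    (hvw : v ≠ w) : ∃ x ∈ CS T A σ, ∃ y ∈ RS T A v, G.Adj x y := by
  have hvW := mem_W_of_mem_D hv
  have hpos := dep_pos_of_mem_D hv
  classical
  -- least `i` with `par^[i+1] v ∈ CS`
  have hex : ∃ i, i < (σ.dep v : ℕ) ∧ σ.par^[i + 1] v ∈ CS T A σ := by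
    refine ⟨(σ.dep v : ℕ) - 1, by omega, ?_⟩
    have : (σ.dep v : ℕ) - 1 + 1 = (σ.dep v : ℕ) := by omega
    rw [this, iter_root σ hvW]
    exact root_mem_CS hv hw hvw
  obtain ⟨hi, hmem⟩ := Nat.find_spec hex
  set i := Nat.find hex with hidef
  refine ⟨σ.par^[i + 1] v, hmem, σ.par^[i] v, ?_, (iter_adj σ hvW hi).symm⟩
  rcases Nat.eq_zero_or_pos i with h0 | h0
  · rw [h0]; exact Or.inl rfl
  · have hnot := Nat.find_min hex (m := i - 1) (by omega)
    have h1 : i - 1 + 1 = i := by omega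
    rw [h1] at hnot
    have hzQ : σ.par^[i] v ∈ σ.Q v := mem_Q.2 ⟨i - 1, by omega, by rw [h1]⟩
    refine Or.inr ⟨σ, hv, hzQ, ?_⟩
    by_contra hb
    exact hnot ⟨by omega, v, hv, hzQ, hb⟩

end

end Minor

open Minor in
/-- T4. Deterministic minor construction. -/
theorem card_goodD_le {V : Type*} [Fintype V] [DecidableEq V] (G : SimpleGraph V) (ℓ : ℕ) (c : ℝ)
    (hc : 0 ≤ c)
    (hG : ∀ (W : Type) [Fintype W] (H : SimpleGraph W), IsShallowMinor ℓ H G →
      (H.edgeSet.ncard : ℝ) ≤ c * Fintype.card W)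
    (T : Finset (TreeSys G ℓ)) (A : Finset V) :
    ((goodD (fun σ : TreeSys G ℓ => σ.root) (fun σ => σ.S) (fun σ v => σ.Q v) T A).card : ℝ)
      ≤ (c + 1) * (T.card + A.card) := by
  classical
  change (((D T A).card : ℕ) : ℝ) ≤ _
  -- systems with at least two good demands
  set T2 : Finset (TreeSys G ℓ) := T.filter (fun σ => ∃ v w, (σ, v) ∈ D T A ∧ (σ, w) ∈ D T A ∧ v ≠ w)
    with hT2
  -- split the good demands
  set D2 : Finset (TreeSys G ℓ × V) := (D T A).filter (fun p => p.1 ∈ T2) with hD2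
  set D1 : Finset (TreeSys G ℓ × V) := (D T A).filter (fun p => p.1 ∉ T2) with hD1
  have hsplit : (D T A).card = D2.card + D1.card := by
    rw [hD2, hD1, Finset.card_filter_add_card_filter_not]
  have hD1card : D1.card ≤ T.card := by
    apply Finset.card_le_card_of_injOn (fun p => p.1)
    · intro p hp
      have hp' := Finset.mem_filter.1 (Finset.mem_coe.1 hp)
      exact (mem_D.1 hp'.1).1.1
    · intro p hp q hq hpq
      have hp' := Finset.mem_filter.1 (Finset.mem_coe.1 hp)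
      have hq' := Finset.mem_filter.1 (Finset.mem_coe.1 hq)
      obtain ⟨σ, v⟩ := p
      obtain ⟨τ, w⟩ := q
      simp only at hpq
      subst hpq
      by_contra hne
      apply hp'.2
      refine Finset.mem_filter.2 ⟨(mem_D.1 hp'.1).1.1, v, w, hp'.1, hq'.1, ?_⟩
      rintro rfl
      exact hne rfl
  -- the minor
  let W' := (↥T2) ⊕ (↥A)
  let n := Fintype.card W'
  let e : Fin n ≃ W' := (Fintype.equivFin W').symm
  let rel : W' → W' → Prop := fun a b =>
    match a, b with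
    | Sum.inl σ, Sum.inr v => ((σ : TreeSys G ℓ), (v : V)) ∈ D T A
    | Sum.inr v, Sum.inl σ => ((σ : TreeSys G ℓ), (v : V)) ∈ D T A
    | _, _ => False
  let H' : SimpleGraph W' :=
    { Adj := rel
      symm := ⟨by
        rintro (a | a) (b | b) h
        · exact h
        · exact h
        · exact h
        · exact h⟩
      loopless := ⟨by
        rintro (a | a) h
        · exact h
        · exact h⟩ }
  let H : SimpleGraph (Fin n) := H'.comap e
  have hminor : IsShallowMinor ℓ H G := by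
    let B' : W' → Set V := fun a =>
      match a with
      | Sum.inl σ => CS T A σ
      | Sum.inr v => RS T A v
    refine ⟨fun i => B' (e i), ?_, ?_, ?_⟩
    · intro i
      change RadiusLE G ℓ (B' (e i))
      rcases e i with σ | v
      · obtain ⟨v, w, hv, hw, hvw⟩ := (Finset.mem_filter.1 σ.2).2
        exact radius_CS hv hw hvw
      · exact radius_RS _
    · intro i j hij
      have hne : e i ≠ e j := fun h => hij (e.injective h)
      change Disjoint (B' (e i)) (B' (e j))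
      generalize e i = a at hne
      generalize e j = b at hne
      rcases a with σ | v <;> rcases b with τ | w
      · apply disj_CC
        intro hr
        apply hne
        obtain ⟨v, _, hv, _, _⟩ := (Finset.mem_filter.1 σ.2).2
        obtain ⟨w, _, hw, _, _⟩ := (Finset.mem_filter.1 τ.2).2
        rw [Subtype.ext (sys_eq hv hw hr)]
      · exact disj_CR w.2
      · exact (disj_CR v.2).symm
      · apply disj_RR v.2 w.2
        intro h
        exact hne (by rw [Subtype.ext h])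
    · intro i j hij
      change rel (e i) (e j) at hij
      change ∃ x ∈ B' (e i), ∃ y ∈ B' (e j), G.Adj x y
      generalize e i = a at hij
      generalize e j = b at hij
      rcases a with σ | v <;> rcases b with τ | w
      · exact hij.elim
      · obtain ⟨v1, w1, hv1, hw1, hvw1⟩ := (Finset.mem_filter.1 σ.2).2
        have hij' : ((σ : TreeSys G ℓ), (w : V)) ∈ D T A := hij
        by_cases h : (w : V) = v1
        · exact adj_CR hij' hw1 (by rw [h]; exact hvw1)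
        · exact adj_CR hij' hv1 h
      · obtain ⟨v1, w1, hv1, hw1, hvw1⟩ := (Finset.mem_filter.1 τ.2).2
        have hij' : ((τ : TreeSys G ℓ), (v : V)) ∈ D T A := hij
        have : ∃ x ∈ CS T A τ, ∃ y ∈ RS T A v, G.Adj x y := by
          by_cases h : (v : V) = v1
          · exact adj_CR hij' hw1 (by rw [h]; exact hvw1)
          · exact adj_CR hij' hv1 h
        obtain ⟨x, hx, y, hy, hxy⟩ := this
        exact ⟨y, hy, x, hx, hxy.symm⟩
      · exact hij.elim
  have hH := hG (Fin n) H hminor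
  have hn : (Fintype.card (Fin n) : ℝ) ≤ (T.card + A.card : ℝ) := by
    have h1 : Fintype.card (Fin n) = T2.card + A.card := by
      simp [n, W', Fintype.card_sum]
    rw [h1]
    have h2 : T2.card ≤ T.card := Finset.card_filter_le _ _
    push_cast
    have h3 : (T2.card : ℝ) ≤ T.card := by exact_mod_cast h2
    linarith
  have hD2card : (D2.card : ℝ) ≤ (H.edgeSet.ncard : ℝ) := by
    have hT2' : ∀ p : D2, p.1.1 ∈ T2 := fun p => (Finset.mem_filter.1 p.2).2
    have hA' : ∀ p : D2, p.1.2 ∈ A := fun p => (mem_D.1 (Finset.mem_filter.1 p.2).1).1.2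
    let g : D2 → Sym2 (Fin n) := fun p =>
      s(e.symm (Sum.inl ⟨p.1.1, hT2' p⟩), e.symm (Sum.inr ⟨p.1.2, hA' p⟩))
    have hg : ∀ p, g p ∈ H.edgeSet := by
      intro p
      change H.Adj _ _
      change rel (e (e.symm _)) (e (e.symm _))
      rw [Equiv.apply_symm_apply, Equiv.apply_symm_apply]
      exact (Finset.mem_filter.1 p.2).1
    have hginj : Function.Injective g := by
      intro p q hpq
      rcases Sym2.eq_iff.1 hpq with ⟨h1, h2⟩ | ⟨h1, h2⟩
      · have h1' := Sum.inl_injective (e.symm.injective h1)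
        have h2' := Sum.inr_injective (e.symm.injective h2)
        apply Subtype.ext
        apply Prod.ext
        · exact congrArg Subtype.val h1'
        · exact congrArg Subtype.val h2'
      · exact absurd (e.symm.injective h1) (by simp)
    have h1 : D2.card = (Set.range g).ncard := by
      rw [← Set.image_univ, Set.ncard_image_of_injective _ hginj, Set.ncard_univ]
      simp
    rw [h1]
    exact_mod_cast Set.ncard_le_ncard (by rintro _ ⟨p, rfl⟩; exact hg p) (Set.toFinite _)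
  have hfin : (c + 1) * ((T.card : ℝ) + A.card) = c * (T.card + A.card) + (T.card + A.card) := by
    ring
  have h5 : c * (Fintype.card (Fin n) : ℝ) ≤ c * (T.card + A.card) :=
    mul_le_mul_of_nonneg_left hn hc
  have h6 : (D1.card : ℝ) ≤ T.card := by exact_mod_cast hD1card
  have h7 : (0 : ℝ) ≤ A.card := by positivity
  rw [hsplit]
  push_cast
  linarith

end Pool.Agent.SC
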