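import Pool.Agent.Lib_helper50.SC.Defs

set_option autoImplicit false

namespace Pool.Agent.SC

open Finset

theorem nabla_set_bdd {V : Type*} [Finite V] (r : ℕ) (G : SimpleGraph V) :
    BddAbove {q : ℝ | ∃ (k : ℕ) (H : SimpleGraph (Fin k)), 0 < k ∧ IsShallowMinor r H G ∧
    q = (H.edgeSet.ncard : ℝ) / k} := by
  classical
  have := Fintype.ofFinite V
  refine ⟨((Fintype.card V + 1).choose 2 : ℕ), ?_⟩
  rintro q ⟨k, H, hk, ⟨B, hB, hdisj, -⟩, rfl⟩
  have hkV : k ≤ Fintype.card V := by
    choose c hc using hB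
    have hinj : Function.Injective (fun i => (c i : V)) := by
      intro i j hij
      by_contra hne
      have := Set.disjoint_left.mp (hdisj i j hne) (c i).2
      simp only at hij
      rw [hij] at this
      exact this (c j).2
    simpa using Fintype.card_le_of_injective _ hinj
  have h1 : H.edgeSet.ncard ≤ (k + 1).choose 2 := by
    calc H.edgeSet.ncard ≤ (Set.univ : Set (Sym2 (Fin k))).ncard :=
          Set.ncard_le_ncard (Set.subset_univ _) (Set.toFinite _)
      _ = Fintype.card (Sym2 (Fin k)) := by rw [Set.ncard_univ, Nat.card_eq_fintype_card]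
      _ = (k + 1).choose 2 := by rw [Sym2.card, Fintype.card_fin]
  have h2 : (k + 1).choose 2 ≤ (Fintype.card V + 1).choose 2 :=
    Nat.choose_le_choose 2 (by omega)
  have hk1 : (1:ℝ) ≤ k := by exact_mod_cast hk
  calc (H.edgeSet.ncard : ℝ) / k ≤ H.edgeSet.ncard := div_le_self (by positivity) hk1
    _ ≤ ((Fintype.card V + 1).choose 2 : ℕ) := by exact_mod_cast h1.trans h2

theorem nabla_nonneg {V : Type*} (r : ℕ) (G : SimpleGraph V) : 0 ≤ nabla r G := by
  unfold nabla
  apply Real.sSup_nonneg
  rintro q ⟨k, H, hk, -, rfl⟩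
  positivity

theorem ncard_edgeSet_le {V : Type*} [Finite V] (r : ℕ) (G : SimpleGraph V) {W : Type*}
    [Fintype W] (H : SimpleGraph W) (hH : IsShallowMinor r H G) :
    (H.edgeSet.ncard : ℝ) ≤ nabla r G * Fintype.card W := by
  rcases Nat.eq_zero_or_pos (Fintype.card W) with h0 | hpos
  · have hem : IsEmpty W := Fintype.card_eq_zero_iff.mp h0
    have : H.edgeSet = ∅ := by
      rw [Set.eq_empty_iff_forall_notMem]
      intro e
      induction e with
      | h x y => exact (hem.false x).elim
    rw [this, h0]; simp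
  · set k := Fintype.card W with hk
    obtain ⟨e⟩ : Nonempty (W ≃ Fin k) := ⟨Fintype.equivFin W⟩
    set H' : SimpleGraph (Fin k) := H.comap e.symm with hH'
    have iso : H' ≃g H := SimpleGraph.Iso.comap e.symm H
    have hcard : H'.edgeSet.ncard = H.edgeSet.ncard := by
      rw [← Nat.card_coe_set_eq, ← Nat.card_coe_set_eq]
      exact Nat.card_congr iso.mapEdgeSet
    have hmin : IsShallowMinor r H' G := by
      obtain ⟨B, hB, hdisj, hadj⟩ := hH
      refine ⟨fun i => B (e.symm i), fun i => hB _, fun i j hij => hdisj _ _ (fun h => hij ?_),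
        fun i j hij => hadj _ _ hij⟩
      exact e.symm.injective h
    have hle : (H'.edgeSet.ncard : ℝ) / k ≤ nabla r G := by
      unfold nabla
      exact le_csSup (nabla_set_bdd r G) ⟨k, H', hpos, hmin, rfl⟩
    rw [hcard, div_le_iff₀ (by exact_mod_cast hpos)] at hle
    exact hle

end Pool.Agent.SC
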