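import Pool.Agent.Lib_helper50.SC.Decay

set_option autoImplicit false

namespace Pool.Agent.SC

open Finset

theorem order_bound {V : Type*} [Fintype V] [DecidableEq V] (G : SimpleGraph V) (r : ℕ)
    (L : ℕ) (hL : 0 < L) (w : Fin L → V → ℝ) (hw : ∀ j x, 0 ≤ w j x) (θ : ℝ) (hθ : 0 < θ)
    (htop : ∀ v, yF w L v < θ) (B : ℕ)
    (hreach : ∀ (j : Fin L) (v : V) (R : Finset V), v ∉ R → (∀ u ∈ R, nuF θ w j u = 1) →
      (∀ u ∈ R, ∃ p : G.Walk v u, p.IsPath ∧ p.length ≤ r ∧ ∀ x ∈ p.support, x ≠ u → w j x < θ) →
      R.card ≤ B) :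
    scol r G ≤ B + 1 := by
  classical
  set n := Fintype.card V with hn
  let P : V → ℕ → Prop := fun v j => j = 0 ∨ θ ≤ yF w j v
  let rank : V → ℕ := fun v => Nat.findGreatest (P v) L
  have hrankP : ∀ v, P v (rank v) := by
    intro v
    exact Nat.findGreatest_spec (P := P v) (Nat.zero_le L) (Or.inl rfl)
  have hrankle : ∀ v j, j ≤ L → P v j → j ≤ rank v := by
    intro v j hj hP
    exact Nat.le_findGreatest hj hP
  have hrankL : ∀ v, rank v < L := by
    intro v
    have h1 : rank v ≤ L := Nat.findGreatest_le L
    rcases lt_or_eq_of_le h1 with h | h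
    · exact h
    · exfalso
      have h2 := hrankP v
      rw [h] at h2
      rcases h2 with h2 | h2
      · omega
      · have := htop v
        linarith
  let e : V ≃ Fin n := Fintype.equivFin V
  let f : V → ℕ := fun v => (L - rank v) * n + (e v : ℕ)
  have hf_rank : ∀ u v, f u ≤ f v → rank v ≤ rank u := by
    intro u v h
    by_contra hlt
    push Not at hlt
    have h1 : (L - rank v) + 1 ≤ L - rank u := by
      have := hrankL v
      omega
    have h2 : ((L - rank v) + 1) * n ≤ (L - rank u) * n := Nat.mul_le_mul_right _ h1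
    have h3 : (e v : ℕ) < n := (e v).2
    have h4 : f v < f u := by
      show (L - rank v) * n + (e v : ℕ) < (L - rank u) * n + (e u : ℕ)
      rw [Nat.add_mul, one_mul] at h2
      omega
    omega
  have hinj : Function.Injective f := by
    intro u v h
    have h1 := hf_rank u v h.le
    have h2 := hf_rank v u h.ge
    have h3 : rank u = rank v := le_antisymm h2 h1
    have h4 : (L - rank u) * n + (e u : ℕ) = (L - rank v) * n + (e v : ℕ) := h
    rw [h3] at h4
    have h5 : (e u : ℕ) = (e v : ℕ) := by omega
    exact e.injective (Fin.ext h5)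
  let o : LinearOrder V := LinearOrder.lift' f hinj
  have hmem : (B + 1) ∈ {k : ℕ | ∃ o : LinearOrder V, ∀ v, (SReach G r o v).ncard ≤ k} := by
    refine ⟨o, fun v => ?_⟩
    set R : Finset V := (SReach G r o v).toFinset.erase v with hR
    have hcard : (SReach G r o v).ncard ≤ R.card + 1 := by
      rw [Set.ncard_eq_toFinset_card', hR]
      have := Finset.pred_card_le_card_erase (s := (SReach G r o v).toFinset) (a := v)
      omega
    refine hcard.trans (Nat.succ_le_succ ?_)
    set j : Fin L := ⟨rank v, hrankL v⟩ with hj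
    refine hreach j v R (by rw [hR]; exact Finset.notMem_erase _ _) ?_ ?_
    · intro u hu
      rw [hR, Finset.mem_erase, Set.mem_toFinset] at hu
      obtain ⟨huv, hule, -⟩ := hu
      have h1 : rank v ≤ rank u := hf_rank u v hule
      apply nuF_eq_one θ hθ
      show rank v = 0 ∨ θ ≤ yF w (rank v) u
      rcases Nat.eq_zero_or_pos (rank v) with h0 | hpos
      · exact Or.inl h0
      · right
        rcases hrankP u with h2 | h2
        · omega
        · exact h2.trans (yF_anti w hw h1 u)
    · intro u hu
      rw [hR, Finset.mem_erase, Set.mem_toFinset] at hu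
      obtain ⟨huv, hule, p, hp, hplen, hpint⟩ := hu
      refine ⟨p, hp, hplen, fun x hx hxu => ?_⟩
      have hxrank : rank x ≤ rank v := by
        by_cases hxv : x = v
        · rw [hxv]
        · have h3 : f v < f x := hpint x hx hxv hxu
          exact hf_rank v x h3.le
      have h4 : ¬ P x (rank v + 1) := by
        intro hP
        have := hrankle x (rank v + 1) (hrankL v) hP
        omega
      have h5 : yF w (rank v + 1) x < θ := by
        by_contra hcon
        push Not at hcon
        exact h4 (Or.inr hcon)
      have h6 := yF_step w j x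
      have h7 := yF_nonneg w hw ((j : ℕ) + 2) x
      have h8 : yF w ((j : ℕ) + 1) x < θ := h5
      linarith
  exact Nat.sInf_le hmem

end Pool.Agent.SC
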