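import Pool.Agent.Lib_helper50.SC.Defs

/-! T7 of helper50's MP_9d6589_co project: the BFS tree inside an unblocked region. -/

set_option autoImplicit false

namespace Pool.Agent.SC

open Finset

namespace Bfs

variable {V : Type*} (G : SimpleGraph V) (U : Set V) (v : V)

/-- `x` is reached from `v` in exactly `k` steps, all vertices but the last being in `U` -/
def RR : ℕ → V → Prop
  | 0, x => x = v
  | (k + 1), x => ∃ y, RR k y ∧ y ∈ U ∧ G.Adj x y

/-- the distance -/
noncomputable def dd (x : V) : ℕ := sInf {k | RR G U v k x}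

variable {G U v}

theorem dd_le {k : ℕ} {x : V} (h : RR G U v k x) : dd G U v x ≤ k := Nat.sInf_le h

theorem RR_dd {k : ℕ} {x : V} (h : RR G U v k x) : RR G U v (dd G U v x) x :=
  Nat.sInf_mem (s := {k | RR G U v k x}) ⟨k, h⟩

theorem exists_par {k : ℕ} {x : V} (h : RR G U v k x) (hpos : 0 < dd G U v x) :
    ∃ y, y ∈ U ∧ G.Adj x y ∧ dd G U v y + 1 = dd G U v x ∧ RR G U v (dd G U v y) y := by
  obtain ⟨m, hm⟩ : ∃ m, dd G U v x = m + 1 := ⟨dd G U v x - 1, by omega⟩
  have h1 := RR_dd h
  rw [hm] at h1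
  obtain ⟨y, hy, hyU, hxy⟩ := h1
  have h2 := dd_le hy
  have h3 := RR_dd hy
  have h4 : RR G U v (dd G U v y + 1) x := ⟨y, h3, hyU, hxy⟩
  have h5 := dd_le h4
  exact ⟨y, hyU, hxy, by omega, h3⟩

theorem RR_of_path {u : V} (p : G.Walk v u) (hp : p.IsPath)
    (hU : ∀ w ∈ p.support, w ≠ u → w ∈ U) : RR G U v p.length u := by
  have key : ∀ k ≤ p.length, RR G U v k (p.getVert k) := by
    intro k
    induction k with
    | zero => intro _; simp [RR]
    | succ k ih =>
      intro hk
      refine ⟨p.getVert k, ih (by omega), ?_, (p.adj_getVert_succ (by omega)).symm⟩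
      apply hU _ (p.getVert_mem_support k)
      intro h
      have h1 : p.getVert k = p.getVert p.length := by rw [h, p.getVert_length]
      have := hp.getVert_injOn (show k ∈ {i | i ≤ p.length} by simp; omega)
        (show p.length ∈ {i | i ≤ p.length} by simp) h1
      omega
  have := key p.length le_rfl
  rwa [p.getVert_length] at this

end Bfs

open Bfs in
/-- T7. BFS tree inside an unblocked region as a `TreeSys`. -/
theorem exists_treeSys {V : Type*} [Fintype V] [DecidableEq V] (G : SimpleGraph V) (ℓ r : ℕ)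
    (hr : r ≤ ℓ) (U : Set V) (v : V) (R : Finset V) (hvR : v ∉ R)
    (hR : ∀ u ∈ R, ∃ p : G.Walk v u, p.IsPath ∧ p.length ≤ r ∧ ∀ w ∈ p.support, w ≠ u → w ∈ U) :
    ∃ σ : TreeSys G ℓ, σ.S = R ∧ ∀ u ∈ R, (σ.Q u).card ≤ r ∧ ∀ x ∈ σ.Q u, x ∈ U := by
  classical
  have hpar : ∀ x : V, ∃ y, (0 < dd G U v x → (∃ k ≤ r, RR G U v k x) →
      y ∈ U ∧ G.Adj x y ∧ dd G U v y + 1 = dd G U v x ∧ RR G U v (dd G U v y) y) := by
    intro x
    by_cases h : 0 < dd G U v x ∧ (∃ k ≤ r, RR G U v k x)
    · obtain ⟨h0, k, hk, hx⟩ := h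
      obtain ⟨y, hy⟩ := exists_par hx h0
      exact ⟨y, fun _ _ => hy⟩
    · exact ⟨v, fun h1 h2 => absurd ⟨h1, h2⟩ h⟩
  choose par hpar using hpar
  let W : Finset V := Finset.univ.filter (fun x => ∃ k ≤ r, RR G U v k x)
  have hW : ∀ x, x ∈ W ↔ ∃ k ≤ r, RR G U v k x := fun x => by simp [W]
  have hle : ∀ x ∈ W, dd G U v x ≤ r := by
    intro x hx
    obtain ⟨k, hk, hx'⟩ := (hW x).1 hx
    exact (dd_le hx').trans hk
  let dep : V → Fin (ℓ + 1) := fun x =>
    if h : dd G U v x ≤ r then ⟨dd G U v x, by omega⟩ else 0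
  have hdep : ∀ x ∈ W, (dep x : ℕ) = dd G U v x := by
    intro x hx
    simp only [dep, dif_pos (hle x hx)]
  have hRW : ∀ u ∈ R, u ∈ W := by
    intro u hu
    obtain ⟨p, hp, hpl, hpU⟩ := hR u hu
    exact (hW u).2 ⟨p.length, hpl, RR_of_path p hp hpU⟩
  have hdpos : ∀ u ∈ R, 0 < dd G U v u := by
    intro u hu
    by_contra h0
    obtain ⟨k, hk, hx'⟩ := (hW u).1 (hRW u hu)
    have h1 := RR_dd hx'
    have h2 : dd G U v u = 0 := by omega
    rw [h2] at h1
    have h3 : u = v := h1
    exact hvR (h3 ▸ hu)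
  have hparW : ∀ x ∈ W, 0 < dd G U v x → par x ∈ W ∧ par x ∈ U ∧ G.Adj x (par x) ∧
      dd G U v (par x) + 1 = dd G U v x := by
    intro x hx h0
    obtain ⟨h1, h2, h3, h4⟩ := hpar x h0 ((hW x).1 hx)
    have := hle x hx
    exact ⟨(hW _).2 ⟨_, by omega, h4⟩, h1, h2, h3⟩
  let σ : TreeSys G ℓ :=
    { root := v
      par := par
      dep := dep
      W := W
      S := R
      SW := hRW
      Spos := by
        intro u hu
        rw [hdep u (hRW u hu)]
        exact hdpos u hu
      root_eq := by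
        intro x hx h0
        rw [hdep x hx] at h0
        obtain ⟨k, hk, hx'⟩ := (hW x).1 hx
        have h1 := RR_dd hx'
        rw [h0] at h1
        exact h1
      par_mem := by
        intro x hx h0
        rw [hdep x hx] at h0
        exact (hparW x hx h0).1
      par_adj := by
        intro x hx h0
        rw [hdep x hx] at h0
        exact (hparW x hx h0).2.2.1
      par_dep := by
        intro x hx h0
        rw [hdep x hx] at h0
        rw [hdep x hx, hdep _ (hparW x hx h0).1]
        exact (hparW x hx h0).2.2.2 }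
  refine ⟨σ, rfl, fun u hu => ⟨?_, ?_⟩⟩
  · have h1 : (σ.Q u).card ≤ (σ.dep u : ℕ) := by
      unfold TreeSys.Q
      exact Finset.card_image_le.trans (by simp)
    have h2 : (σ.dep u : ℕ) = dd G U v u := hdep u (hRW u hu)
    rw [h2] at h1
    exact h1.trans (hle u (hRW u hu))
  · intro x hx
    unfold TreeSys.Q at hx
    obtain ⟨i, hi, rfl⟩ := Finset.mem_image.1 hx
    have hi' : i < dd G U v u := by
      have h2 : (σ.dep u : ℕ) = dd G U v u := hdep u (hRW u hu)
      rw [← h2]
      exact Finset.mem_range.1 hi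
    have key : ∀ j ≤ dd G U v u, par^[j] u ∈ W ∧ dd G U v (par^[j] u) + j = dd G U v u := by
      intro j
      induction j with
      | zero => intro _; exact ⟨hRW u hu, by simp⟩
      | succ j ih =>
        intro hj
        obtain ⟨h1, h2⟩ := ih (by omega)
        rw [Function.iterate_succ_apply']
        have := hparW _ h1 (by omega)
        exact ⟨this.1, by omega⟩
    obtain ⟨h1, h2⟩ := key i hi'.le
    change par^[i + 1] u ∈ U
    rw [Function.iterate_succ_apply']
    exact (hparW _ h1 (by omega)).2.1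

end Pool.Agent.SC
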