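import Pool.Agent.Lib_helper50.SC.Sep
import Pool.Agent.Lib_helper50.SC.Nabla
import Pool.Agent.Lib_helper50.SC.Order
import Pool.Agent.Lib_helper50.SC.Minor
import Pool.Agent.Lib_helper50.SC.Tree

set_option autoImplicit false

namespace Pool.Agent.SC

open Finset

section fin

variable {V : Type*} [Finite V] {G : SimpleGraph V} {ℓ : ℕ}

theorem treeSys_inj : Function.Injective
    (fun σ : TreeSys G ℓ => (σ.root, σ.par, σ.dep, σ.W, σ.S)) := by
  intro σ τ h
  cases σ; cases τ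
  simp only [Prod.mk.injEq] at h
  obtain ⟨h1, h2, h3, h4, h5⟩ := h
  subst h1 h2 h3 h4 h5
  rfl

instance : Finite (TreeSys G ℓ) := by
  classical
  have := Fintype.ofFinite V
  exact Finite.of_injective _ treeSys_inj

end fin

theorem card_goodD_image {ι κ V : Type*} [DecidableEq κ] (F : ι → κ) (hF : Function.Injective F)
    (root : κ → V) (S : κ → Finset V) (Q : κ → V → Finset V) (T : Finset ι) (A : Finset V) :
    (goodD (fun i => root (F i)) (fun i => S (F i)) (fun i => Q (F i)) T A).card ≤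
      (goodD root S Q (T.image F) A).card := by
  classical
  refine Finset.card_le_card_of_injOn (fun p => (F p.1, p.2)) ?_ ?_
  · intro p hp
    rw [Finset.mem_coe, mem_goodD] at hp
    rw [Finset.mem_coe, mem_goodD]
    obtain ⟨h1, h2, h3, h4, h5, h6⟩ := hp
    refine ⟨Finset.mem_image_of_mem F h1, h2, h3, ?_, h5, ?_⟩
    · intro σ hσ hr
      obtain ⟨i, hi, rfl⟩ := Finset.mem_image.mp hσ
      exact congrArg F (h4 i hi hr)
    · intro σ hσ v hv hvS hr hvp
      obtain ⟨i, hi, rfl⟩ := Finset.mem_image.mp hσ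
      exact h6 i hi v hv hvS hr hvp
  · intro p _ q _ h
    simp only [Prod.mk.injEq] at h
    exact Prod.ext (hF h.1) h.2

theorem scol_zero_le {V : Type*} [Finite V] (G : SimpleGraph V) : scol 0 G ≤ 1 := by
  classical
  have := Fintype.ofFinite V
  have : (1 : ℕ) ∈ {k : ℕ | ∃ o : LinearOrder V, ∀ v, (SReach G 0 o v).ncard ≤ k} := by
    refine ⟨LinearOrder.lift' (Fintype.equivFin V) (Fintype.equivFin V).injective, fun v => ?_⟩
    have hsub : SReach G 0 (LinearOrder.lift' (Fintype.equivFin V) (Fintype.equivFin V).injective) v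
        ⊆ {v} := by
      rintro u ⟨-, p, -, hlen, -⟩
      have h0 : p.length = 0 := Nat.le_zero.mp hlen
      exact (SimpleGraph.Walk.eq_of_length_eq_zero h0).symm
    exact (Set.ncard_le_ncard hsub (Set.toFinite _)).trans (by simp)
  exact Nat.sInf_le this

theorem scol_le_of_brouwer (hBr : BrouwerCube.{0}) {V : Type} [Finite V] (G : SimpleGraph V)
    (r : ℕ) : (scol r G : ℝ) ≤ 8192 * (r:ℝ) ^ 2 * (nabla r G + 1) ^ 2 + 3 := by
  classical
  have := Fintype.ofFinite V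
  rcases Nat.eq_zero_or_pos r with h0 | hr
  · subst h0
    have h1 : (scol 0 G : ℝ) ≤ 1 := by exact_mod_cast scol_zero_le G
    have h2 : 0 ≤ 8192 * ((0:ℕ):ℝ) ^ 2 * (nabla 0 G + 1) ^ 2 := by positivity
    linarith
  have hrr : (1:ℝ) ≤ r := by exact_mod_cast hr
  set c : ℝ := nabla r G + 1 with hc
  have hc1 : 1 ≤ c := by have := nabla_nonneg r G; linarith
  set K : ℝ := 2048 * (r:ℝ) ^ 2 * c ^ 2 with hK
  have hK1 : 2048 ≤ K := by
    have h1 : (1:ℝ) ≤ (r:ℝ) ^ 2 := one_le_pow₀ hrr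
    have h2 : (1:ℝ) ≤ c ^ 2 := one_le_pow₀ hc1
    nlinarith
  have hK16 : 16 * (r:ℝ) * c ≤ K := by
    have h1 : (r:ℝ) * c ≤ ((r:ℝ) * c) ^ 2 := by
      have : 1 ≤ (r:ℝ) * c := by nlinarith
      nlinarith
    have h2 : K = 2048 * ((r:ℝ) * c) ^ 2 := by rw [hK]; ring
    have h3 : 0 ≤ (r:ℝ) * c := by positivity
    nlinarith
  have hKpos : 0 < K := by linarith
  set θ : ℝ := 1 / (8 * r) with hθ
  have hθpos : 0 < θ := by rw [hθ]; positivity
  have hrθ : (r:ℝ) * θ = 1 / 8 := by rw [hθ]; field_simp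
  set η : ℝ := 64 * (r:ℝ) * c ^ 2 / K with hη
  have hη4 : 4 * η = θ := by
    rw [hη, hθ, hK]; field_simp; norm_num
  have hη0 : 0 ≤ η := by rw [hη]; positivity
  -- the family of systems
  let ι := {σ : TreeSys G r // (σ.S.card : ℝ) ≤ 5 * K}
  letI : Fintype ι := Fintype.ofFinite ι
  have hgood : ∀ (T : Finset ι) (A : Finset V),
      ((goodD (fun σ : ι => σ.1.root) (fun σ => σ.1.S) (fun σ v => σ.1.Q v) T A).card : ℝ)
        ≤ c * (T.card + A.card) := by
    intro T A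
    have h1 := card_goodD_image (fun σ : ι => σ.1) Subtype.val_injective
      (fun σ : TreeSys G r => σ.root) (fun σ => σ.S) (fun σ v => σ.Q v) T A
    have h2 := card_goodD_le G r (nabla r G) (nabla_nonneg r G)
      (fun W _ H hH => ncard_edgeSet_le r G H hH) (T.image (fun σ : ι => σ.1)) A
    have h3 : ((T.image (fun σ : ι => σ.1)).card : ℝ) ≤ T.card := by
      exact_mod_cast Finset.card_image_le
    calc ((goodD (fun σ : ι => σ.1.root) (fun σ => σ.1.S) (fun σ v => σ.1.Q v) T A).card : ℝ)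
        ≤ ((goodD (fun σ : TreeSys G r => σ.root) (fun σ => σ.S) (fun σ v => σ.Q v)
          (T.image (fun σ : ι => σ.1)) A).card : ℝ) := by exact_mod_cast h1
      _ ≤ (nabla r G + 1) * ((T.image (fun σ : ι => σ.1)).card + A.card) := h2
      _ ≤ c * (T.card + A.card) := by
          rw [← hc]
          gcongr
  have hsep : ∀ ν : V → ℝ, (∀ v, 0 ≤ ν v) → (∀ v, ν v ≤ 1) →
      ∃ w : V → ℝ, (∀ x, 0 ≤ w x) ∧ ∑ x, w x ≤ η * ∑ v, ν v ∧
      ∀ σ : ι, ∑ v ∈ σ.1.S, ν v * (1 / 2 - θ * (σ.1.Q v).card - ∑ x ∈ σ.1.Q v, w x) ≤ K := by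
    intro ν hν0 hν1
    refine sep_abstract (fun σ : ι => σ.1.root) (fun σ => σ.1.S) (fun σ v => σ.1.Q v) r K c
      hr hc1 hK16 (fun σ => σ.2) ?_ ?_ ?_ hgood θ hθpos.le ν hν0 hν1 η hη
    · intro σ v hv
      refine Finset.card_image_le.trans ?_
      rw [Finset.card_range]
      have := (σ.1.dep v).2
      omega
    · intro σ v hv hmem
      obtain ⟨i, hi, hiv⟩ := Minor.mem_Q.1 hmem
      have h2 := (Minor.iter_mem σ.1 (σ.1.SW hv) (i + 1) (by omega)).2
      rw [hiv] at h2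
      omega
    · intro σ v hv
      have hpos := σ.1.Spos v hv
      refine Minor.mem_Q.2 ⟨(σ.1.dep v : ℕ) - 1, by omega, ?_⟩
      have : (σ.1.dep v : ℕ) - 1 + 1 = (σ.1.dep v : ℕ) := by omega
      rw [this]
      exact Minor.iter_root σ.1 (σ.1.SW hv)
  obtain ⟨L, ε, hL, hε, hε4, hdecay⟩ := decay (V := V) η θ hθpos hη0 hη4.le
  obtain ⟨w, hw0, hwmass, hwsep⟩ := exists_levels hBr (fun σ : ι => σ.1.S)
    (fun σ v => σ.1.Q v) K η θ θ hη0 hsep L ε hε
  have htop := hdecay w hw0 hwmass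
  set B : ℕ := ⌈4 * K⌉₊ + 1 with hB
  have hBbound : (B : ℝ) ≤ 4 * K + 2 := by
    rw [hB]
    push_cast
    have := Nat.ceil_lt_add_one (by positivity : 0 ≤ 4 * K)
    linarith
  have hBlow : 4 * K + 1 ≤ B := by
    rw [hB]
    push_cast
    have := Nat.le_ceil (4 * K)
    linarith
  have hmain : scol r G ≤ B + 1 := by
    refine order_bound G r L hL w hw0 θ hθpos htop B ?_
    intro j v R hvR hνR hpath
    by_contra hcon
    push Not at hcon
    obtain ⟨R', hR'sub, hR'card⟩ := Finset.exists_subset_card_eq (by omega : B + 1 ≤ R.card)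
    obtain ⟨σ, hσS, hσQ⟩ := exists_treeSys G r r (le_refl r) {x | w j x < θ} v R'
      (fun h => hvR (hR'sub h)) (fun u hu => hpath u (hR'sub hu))
    have hσcard : (σ.S.card : ℝ) ≤ 5 * K := by
      rw [hσS, hR'card]
      push_cast
      linarith
    have hcons := hwsep j ⟨σ, hσcard⟩
    simp only [hσS] at hcons
    have hlow : (R'.card : ℝ) * (1 / 4) ≤ ∑ v ∈ R', nuF θ w j v *
        (1 / 2 - θ * (σ.Q v).card - ∑ x ∈ σ.Q v, w j x) := by
      rw [← nsmul_eq_mul, ← Finset.sum_const]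
      refine Finset.sum_le_sum (fun u hu => ?_)
      rw [hνR u (hR'sub hu), one_mul]
      obtain ⟨h1, h2⟩ := hσQ u hu
      have h3 : ∑ x ∈ σ.Q u, w j x ≤ (σ.Q u).card * θ := by
        rw [← nsmul_eq_mul, ← Finset.sum_const]
        exact Finset.sum_le_sum (fun x hx => (h2 x hx).le)
      have h4 : ((σ.Q u).card : ℝ) ≤ r := by exact_mod_cast h1
      have h5 : ((σ.Q u).card : ℝ) * θ ≤ r * θ := by gcongr
      rw [hrθ] at h5
      linarith
    have h6 : (R'.card : ℝ) * (1 / 4) ≤ K + ε := hlow.trans hcons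
    rw [hR'card] at h6
    push_cast at h6
    linarith
  calc (scol r G : ℝ) ≤ (B : ℝ) + 1 := by exact_mod_cast hmain
    _ ≤ 4 * K + 3 := by linarith
    _ = 8192 * (r:ℝ) ^ 2 * (nabla r G + 1) ^ 2 + 3 := by rw [hK, hc]; ring

end Pool.Agent.SC
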