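import Pool.Agent.Lib_helper50.SC.Defs
import Pool.Agent.Lib_helper50.SC.LP

set_option autoImplicit false

namespace Pool.Agent.SC

open Finset

theorem mem_goodD {ι V : Type*} (root : ι → V) (S : ι → Finset V) (Q : ι → V → Finset V)
    (T : Finset ι) (A : Finset V) (p : ι × V) : p ∈ goodD root S Q T A ↔
    p.1 ∈ T ∧ p.2 ∈ A ∧ p.2 ∈ S p.1 ∧
    (∀ σ ∈ T, root σ = root p.1 → σ = p.1) ∧
    (∀ x ∈ Q p.1 p.2, x ∉ A) ∧
    (∀ σ ∈ T, ∀ v ∈ A, v ∈ S σ → root σ ≠ root p.1 → v ≠ p.2 →
      Disjoint (Q p.1 p.2) (Q σ v)) := by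
  classical
  unfold goodD
  rw [Finset.mem_filter, Finset.mem_product, and_assoc]

/-! ### Multi-affine rounding -/

/-- affine in every coordinate. -/
def MA {X : Type*} [DecidableEq X] (f : (X → ℝ) → ℝ) : Prop :=
  ∀ ρ e, f ρ = (1 - ρ e) * f (Function.update ρ e 0) + ρ e * f (Function.update ρ e 1)

section MAlemmas

variable {X : Type*} [DecidableEq X]

theorem MA.const (c : ℝ) : MA (fun _ : X → ℝ => c) := by
  intro ρ e; ring

theorem MA.coord (a : X) : MA (fun ρ : X → ℝ => ρ a) := by
  intro ρ e
  by_cases h : a = e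
  · subst h; simp
  · simp only [Function.update_of_ne h]; ring

theorem MA.add {f g : (X → ℝ) → ℝ} (hf : MA f) (hg : MA g) : MA (fun ρ => f ρ + g ρ) := by
  intro ρ e
  have h1 := hf ρ e
  have h2 := hg ρ e
  simp only
  linarith

theorem MA.sub {f g : (X → ℝ) → ℝ} (hf : MA f) (hg : MA g) : MA (fun ρ => f ρ - g ρ) := by
  intro ρ e
  have h1 := hf ρ e
  have h2 := hg ρ e
  simp only
  linarith

theorem MA.const_mul (c : ℝ) {f : (X → ℝ) → ℝ} (hf : MA f) : MA (fun ρ => c * f ρ) := by
  intro ρ e
  have h1 := hf ρ e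
  simp only
  rw [h1]; ring

theorem MA.sum {K : Type*} (s : Finset K) {f : K → (X → ℝ) → ℝ} (hf : ∀ k ∈ s, MA (f k)) :
    MA (fun ρ => ∑ k ∈ s, f k ρ) := by
  intro ρ e
  simp only [Finset.mul_sum]
  rw [← Finset.sum_add_distrib]
  exact Finset.sum_congr rfl (fun k hk => hf k hk ρ e)

theorem MA.ite {f : (X → ℝ) → ℝ} (P : Prop) [Decidable P] (hf : P → MA f) :
    MA (fun ρ => if P then f ρ else 0) := by
  by_cases h : P
  · simpa [h] using hf h
  · simpa [h] using MA.const (X := X) 0

theorem MA.coord_mul (a : X) {f : (X → ℝ) → ℝ} (hf : MA f)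
    (hind : ∀ ρ t, f (Function.update ρ a t) = f ρ) : MA (fun ρ => ρ a * f ρ) := by
  intro ρ e
  by_cases h : a = e
  · subst h; simp [hind]
  · simp only [Function.update_of_ne h]
    rw [hf ρ e]; ring

theorem MA.round [Fintype X] {f : (X → ℝ) → ℝ} (hf : MA f) (B : ℝ)
    (h01 : ∀ ρ : X → ℝ, (∀ e, ρ e = 0 ∨ ρ e = 1) → f ρ ≤ B)
    (ρ : X → ℝ) (h0 : ∀ e, 0 ≤ ρ e) (h1 : ∀ e, ρ e ≤ 1) : f ρ ≤ B := by
  have key : ∀ T : Finset X, ∀ ρ : X → ℝ, (∀ e, 0 ≤ ρ e) → (∀ e, ρ e ≤ 1) →
      (∀ e, e ∉ T → ρ e = 0 ∨ ρ e = 1) → f ρ ≤ B := by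
    intro T
    induction T using Finset.induction_on with
    | empty => 
      intro ρ _ _ h
      exact h01 ρ (fun e => h e (by simp))
    | insert a T ha ih =>
      intro ρ h0 h1 h
      rw [hf ρ a]
      have e0 : f (Function.update ρ a 0) ≤ B := by
        apply ih
        · intro e
          by_cases hh : e = a
          · subst hh; simp
          · rw [Function.update_of_ne hh]; exact h0 e
        · intro e
          by_cases hh : e = a
          · subst hh; simp
          · rw [Function.update_of_ne hh]; exact h1 e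
        · intro e he
          by_cases hh : e = a
          · subst hh; simp
          · rw [Function.update_of_ne hh]; exact h e (by simp [hh, he])
      have e1 : f (Function.update ρ a 1) ≤ B := by
        apply ih
        · intro e
          by_cases hh : e = a
          · subst hh; simp
          · rw [Function.update_of_ne hh]; exact h0 e
        · intro e
          by_cases hh : e = a
          · subst hh; simp
          · rw [Function.update_of_ne hh]; exact h1 e
        · intro e he
          by_cases hh : e = a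
          · subst hh; simp
          · rw [Function.update_of_ne hh]; exact h e (by simp [hh, he])
      have := h0 a
      have := h1 a
      calc (1 - ρ a) * f (Function.update ρ a 0) + ρ a * f (Function.update ρ a 1)
          ≤ (1 - ρ a) * B + ρ a * B := by
            have h2 : 0 ≤ 1 - ρ a := by linarith
            gcongr
        _ = B := by ring
  exact key Finset.univ ρ h0 h1 (fun e he => absurd (Finset.mem_univ e) he)

end MAlemmas

/-! ### The sampling inequality -/

section sampling

variable {V ι : Type*} [Fintype V] [DecidableEq V] [Fintype ι] [DecidableEq ι]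

/-- the correction factor. -/
noncomputable def Gfac (root : ι → V) (S : ι → Finset V) (Q : ι → V → Finset V)
    (ρ : ι → ℝ) (τ : V → ℝ) (σ : ι) (v : V) : ℝ :=
  1 - (∑ x ∈ Q σ v, τ x)
    - (∑ σ', ∑ v' ∈ S σ', if (root σ' ≠ root σ ∧ v' ≠ v ∧ ¬ Disjoint (Q σ v) (Q σ' v')) then
        ρ σ' * τ v' else 0)
    - (∑ σ', if (σ' ≠ σ ∧ root σ' = root σ) then ρ σ' else 0)

theorem sampling_MA (root : ι → V) (S : ι → Finset V) (Q : ι → V → Finset V)
    (hvQ : ∀ σ v, v ∈ S σ → v ∉ Q σ v) (c : ℝ) :
    MA (fun r : ι ⊕ V → ℝ =>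
      (∑ σ, ∑ v ∈ S σ, r (Sum.inl σ) * (r (Sum.inr v) *
        Gfac root S Q (fun σ => r (Sum.inl σ)) (fun v => r (Sum.inr v)) σ v))
      - c * ((∑ σ, r (Sum.inl σ)) + ∑ v, r (Sum.inr v))) := by
  apply MA.sub
  · apply MA.sum
    intro σ _
    apply MA.sum
    intro v hv
    have hG : MA (fun r : ι ⊕ V → ℝ =>
        Gfac root S Q (fun σ => r (Sum.inl σ)) (fun v => r (Sum.inr v)) σ v) := by
      unfold Gfac
      apply MA.sub
      · apply MA.sub
        · apply MA.sub
          · exact MA.const 1
          · apply MA.sum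
            intro x _
            exact MA.coord _
        · apply MA.sum
          intro σ' _
          apply MA.sum
          intro v' _
          apply MA.ite
          intro _
          apply MA.coord_mul
          · exact MA.coord _
          · intro ρ t
            simp
      · apply MA.sum
        intro σ' _
        apply MA.ite
        intro _
        exact MA.coord _
    have h1 : ∀ (r : ι ⊕ V → ℝ) t,
        Gfac root S Q (fun σ => (Function.update r (Sum.inr v) t) (Sum.inl σ))
          (fun v' => (Function.update r (Sum.inr v) t) (Sum.inr v')) σ v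
        = Gfac root S Q (fun σ => r (Sum.inl σ)) (fun v => r (Sum.inr v)) σ v := by
      intro r t
      unfold Gfac
      have e1 : ∑ x ∈ Q σ v, (fun v' => (Function.update r (Sum.inr v) t) (Sum.inr v')) x
          = ∑ x ∈ Q σ v, (fun v' => r (Sum.inr v')) x := by
        refine Finset.sum_congr rfl (fun x hx => ?_)
        have : x ≠ v := fun h => hvQ σ v hv (h ▸ hx)
        simp [this]
      have e2 : (∑ σ', ∑ v' ∈ S σ',
            if (root σ' ≠ root σ ∧ v' ≠ v ∧ ¬ Disjoint (Q σ v) (Q σ' v')) then
            (fun σ => (Function.update r (Sum.inr v) t) (Sum.inl σ)) σ' *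
            (fun v' => (Function.update r (Sum.inr v) t) (Sum.inr v')) v' else 0)
          = (∑ σ', ∑ v' ∈ S σ',
            if (root σ' ≠ root σ ∧ v' ≠ v ∧ ¬ Disjoint (Q σ v) (Q σ' v')) then
            (fun σ => r (Sum.inl σ)) σ' * (fun v' => r (Sum.inr v')) v' else 0) := by
        refine Finset.sum_congr rfl (fun σ' _ => Finset.sum_congr rfl (fun v' _ => ?_))
        split_ifs with hh
        · simp [hh.2.1]
        · rfl
      rw [e1, e2]
      simp
    have h2 : ∀ (r : ι ⊕ V → ℝ) t,
        Gfac root S Q (fun σ' => (Function.update r (Sum.inl σ) t) (Sum.inl σ'))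
          (fun v' => (Function.update r (Sum.inl σ) t) (Sum.inr v')) σ v
        = Gfac root S Q (fun σ => r (Sum.inl σ)) (fun v => r (Sum.inr v)) σ v := by
      intro r t
      unfold Gfac
      congr 1
      · congr 1
        refine Finset.sum_congr rfl (fun σ' _ => Finset.sum_congr rfl (fun v' _ => ?_))
        split_ifs with hh
        · have : σ' ≠ σ := fun h => hh.1 (by rw [h])
          simp [this]
        · rfl
      · refine Finset.sum_congr rfl (fun σ' _ => ?_)
        split_ifs with hh
        · simp [hh.1]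
        · rfl
    apply MA.coord_mul
    · apply MA.coord_mul
      · exact hG
      · intro ρ t
        exact h1 ρ t
    · intro ρ t
      have := h2 ρ t
      simp only [this]
      simp
  · apply MA.const_mul
    apply MA.add
    · apply MA.sum
      intro σ _
      exact MA.coord _
    · apply MA.sum
      intro σ _
      exact MA.coord _

theorem sampling (root : ι → V) (S : ι → Finset V) (Q : ι → V → Finset V)
    (hvQ : ∀ σ v, v ∈ S σ → v ∉ Q σ v) (c : ℝ)
    (hgood : ∀ (T : Finset ι) (A : Finset V),
      ((goodD root S Q T A).card : ℝ) ≤ c * (T.card + A.card))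
    (ρ : ι → ℝ) (τ : V → ℝ) (hρ0 : ∀ σ, 0 ≤ ρ σ) (hρ1 : ∀ σ, ρ σ ≤ 1)
    (hτ0 : ∀ v, 0 ≤ τ v) (hτ1 : ∀ v, τ v ≤ 1) :
    ∑ σ, ∑ v ∈ S σ, ρ σ * (τ v * Gfac root S Q ρ τ σ v) ≤ c * ((∑ σ, ρ σ) + ∑ v, τ v) := by
  have hMA := sampling_MA root S Q hvQ c
  have := hMA.round 0 ?_ (Sum.elim ρ τ) ?_ ?_
  · simp only [Sum.elim_inl, Sum.elim_inr] at this
    linarith
  · intro r hr
    set T : Finset ι := Finset.univ.filter (fun σ => r (Sum.inl σ) = 1) with hT
    set A : Finset V := Finset.univ.filter (fun v => r (Sum.inr v) = 1) with hA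
    have hTc : ∑ σ, r (Sum.inl σ) = (T.card : ℝ) := by
      rw [hT, Finset.card_filter]
      push_cast
      refine Finset.sum_congr rfl (fun σ _ => ?_)
      rcases hr (Sum.inl σ) with h | h
      · simp [h]
      · simp [h]
    have hAc : ∑ v, r (Sum.inr v) = (A.card : ℝ) := by
      rw [hA, Finset.card_filter]
      push_cast
      refine Finset.sum_congr rfl (fun σ _ => ?_)
      rcases hr (Sum.inr σ) with h | h
      · simp [h]
      · simp [h]
    rw [hTc, hAc]
    have hg := hgood T A
    suffices h : ∑ σ, ∑ v ∈ S σ, r (Sum.inl σ) * (r (Sum.inr v) *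
        Gfac root S Q (fun σ => r (Sum.inl σ)) (fun v => r (Sum.inr v)) σ v)
        ≤ ((goodD root S Q T A).card : ℝ) by linarith
    have hnn : ∀ e, 0 ≤ r e := by
      intro e
      rcases hr e with h | h <;> rw [h] <;> norm_num
    have hcard : ((goodD root S Q T A).card : ℝ)
        = ∑ σ, ∑ v, if (σ, v) ∈ goodD root S Q T A then (1:ℝ) else 0 := by
      rw [← Finset.sum_product']
      rw [Finset.sum_ite_mem]
      simp
    rw [hcard]
    refine Finset.sum_le_sum (fun σ _ => ?_)
    calc ∑ v ∈ S σ, r (Sum.inl σ) * (r (Sum.inr v) *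
        Gfac root S Q (fun σ => r (Sum.inl σ)) (fun v => r (Sum.inr v)) σ v)
        ≤ ∑ v ∈ S σ, (if (σ, v) ∈ goodD root S Q T A then (1:ℝ) else 0) := ?_
      _ ≤ ∑ v, (if (σ, v) ∈ goodD root S Q T A then (1:ℝ) else 0) := by
          refine Finset.sum_le_sum_of_subset_of_nonneg (Finset.subset_univ _) ?_
          intro v _ _
          split_ifs <;> norm_num
    refine Finset.sum_le_sum (fun v hv => ?_)
    rcases hr (Sum.inl σ) with h1 | h1
    · rw [h1, zero_mul]; split_ifs <;> norm_num
    rcases hr (Sum.inr v) with h2 | h2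
    · rw [h2, zero_mul, mul_zero]; split_ifs <;> norm_num
    rw [h1, h2, one_mul, one_mul]
    have s1 : 0 ≤ ∑ x ∈ Q σ v, r (Sum.inr x) := Finset.sum_nonneg (fun x _ => hnn _)
    have s2 : 0 ≤ (∑ σ', ∑ v' ∈ S σ',
        if (root σ' ≠ root σ ∧ v' ≠ v ∧ ¬ Disjoint (Q σ v) (Q σ' v')) then
        r (Sum.inl σ') * r (Sum.inr v') else 0) := by
      refine Finset.sum_nonneg (fun x _ => Finset.sum_nonneg (fun y _ => ?_))
      split_ifs
      · exact mul_nonneg (hnn _) (hnn _)
      · exact le_refl _
    have s3 : 0 ≤ (∑ σ', if (σ' ≠ σ ∧ root σ' = root σ) then r (Sum.inl σ') else 0) := by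
      refine Finset.sum_nonneg (fun x _ => ?_)
      split_ifs
      · exact (hnn _)
      · exact le_refl _
    by_cases hmem : (σ, v) ∈ goodD root S Q T A
    · rw [if_pos hmem]
      unfold Gfac
      linarith
    · rw [if_neg hmem]
      rw [mem_goodD] at hmem
      have hσT : σ ∈ T := by rw [hT]; simp [h1]
      have hvA : v ∈ A := by rw [hA]; simp [h2]
      simp only [hσT, hvA, hv, true_and, not_and_or] at hmem
      unfold Gfac
      rcases hmem with hm | hm | hm
      · push Not at hm
        obtain ⟨σ', hσ'T, hroot, hne⟩ := hm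
        have : (1:ℝ) ≤ (∑ σ', if (σ' ≠ σ ∧ root σ' = root σ) then r (Sum.inl σ') else 0) := by
          have hle := Finset.single_le_sum (f := fun σ' =>
            if (σ' ≠ σ ∧ root σ' = root σ) then r (Sum.inl σ') else 0) (s := Finset.univ)
            (fun x _ => by
              show (0:ℝ) ≤ if (x ≠ σ ∧ root x = root σ) then r (Sum.inl x) else 0
              split_ifs
              · exact hnn _
              · exact le_refl _) (Finset.mem_univ σ')
          have hv1 : r (Sum.inl σ') = 1 := by
            rw [hT] at hσ'T; simpa using hσ'T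
          rw [if_pos ⟨hne, hroot⟩, hv1] at hle
          exact hle
        linarith
      · push Not at hm
        obtain ⟨x, hx, hxA⟩ := hm
        have : (1:ℝ) ≤ ∑ x ∈ Q σ v, r (Sum.inr x) := by
          have hle := Finset.single_le_sum (f := fun x => r (Sum.inr x)) (s := Q σ v)
            (fun x _ => hnn _) hx
          have hv1 : r (Sum.inr x) = 1 := by
            rw [hA] at hxA; simpa using hxA
          simp only [hv1] at hle
          exact hle
        linarith
      · push Not at hm
        obtain ⟨σ', hσ'T, v', hv'A, hv'S, hroot, hne, hnd⟩ := hm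
        have : (1:ℝ) ≤ (∑ σ', ∑ v' ∈ S σ',
            if (root σ' ≠ root σ ∧ v' ≠ v ∧ ¬ Disjoint (Q σ v) (Q σ' v')) then
            r (Sum.inl σ') * r (Sum.inr v') else 0) := by
          have hle := Finset.single_le_sum (f := fun σ' => ∑ v' ∈ S σ',
            if (root σ' ≠ root σ ∧ v' ≠ v ∧ ¬ Disjoint (Q σ v) (Q σ' v')) then
            r (Sum.inl σ') * r (Sum.inr v') else 0) (s := Finset.univ)
            (fun x _ => Finset.sum_nonneg (fun y _ => by
              split_ifs
              · exact mul_nonneg (hnn _) (hnn _)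
              · exact le_refl _)) (Finset.mem_univ σ')
          have hle2 := Finset.single_le_sum (f := fun v' => 
            if (root σ' ≠ root σ ∧ v' ≠ v ∧ ¬ Disjoint (Q σ v) (Q σ' v')) then
            r (Sum.inl σ') * r (Sum.inr v') else 0) (s := S σ')
            (fun x _ => by
              show (0:ℝ) ≤ if (root σ' ≠ root σ ∧ x ≠ v ∧ ¬ Disjoint (Q σ v) (Q σ' x)) then
                r (Sum.inl σ') * r (Sum.inr x) else 0
              split_ifs
              · exact mul_nonneg (hnn _) (hnn _)
              · exact le_refl _) hv'S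
          have hv1 : r (Sum.inl σ') = 1 := by
            rw [hT] at hσ'T; simpa using hσ'T
          have hv2 : r (Sum.inr v') = 1 := by
            rw [hA] at hv'A; simpa using hv'A
          rw [if_pos ⟨hroot, hne, hnd⟩] at hle2
          have h12 : r (Sum.inl σ') * r (Sum.inr v') = 1 := by rw [hv1, hv2, one_mul]
          rw [h12] at hle2
          exact le_trans hle2 hle
        linarith
  · intro e
    rcases e with e | e
    · exact hρ0 e
    · exact hτ0 e
  · intro e
    rcases e with e | e
    · exact hρ1 e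
    · exact hτ1 e

end sampling

end Pool.Agent.SC
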