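import Pool.Agent.Lib_helper50.SC.Sampling

set_option autoImplicit false

namespace Pool.Agent.SC

open Finset

/-- The separation lemma (abstract form). -/
theorem sep_abstract {V ι : Type*} [Fintype V] [DecidableEq V] [Fintype ι] [DecidableEq ι]
    (root : ι → V) (S : ι → Finset V) (Q : ι → V → Finset V) (ℓ : ℕ) (K c : ℝ)
    (hℓ : 1 ≤ ℓ) (hc : 1 ≤ c) (hK : 16 * ℓ * c ≤ K)
    (hSM : ∀ σ, ((S σ).card : ℝ) ≤ 5 * K)
    (hQ : ∀ σ v, v ∈ S σ → (Q σ v).card ≤ ℓ)
    (hvQ : ∀ σ v, v ∈ S σ → v ∉ Q σ v)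
    (hrQ : ∀ σ v, v ∈ S σ → root σ ∈ Q σ v)
    (hgood : ∀ (T : Finset ι) (A : Finset V),
      ((goodD root S Q T A).card : ℝ) ≤ c * (T.card + A.card))
    (γ : ℝ) (hγ : 0 ≤ γ) (ν : V → ℝ) (hν0 : ∀ v, 0 ≤ ν v) (hν1 : ∀ v, ν v ≤ 1)
    (η : ℝ) (hη : η = 64 * ℓ * c ^ 2 / K) :
    ∃ w : V → ℝ, (∀ x, 0 ≤ w x) ∧ ∑ x, w x ≤ η * ∑ v, ν v ∧
      ∀ σ, ∑ v ∈ S σ, ν v * (1 / 2 - γ * (Q σ v).card - ∑ x ∈ Q σ v, w x) ≤ K := by
  by_contra hcon
  push Not at hcon
  have hℓr : (1:ℝ) ≤ ℓ := by exact_mod_cast hℓ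
  have hℓ0 : (0:ℝ) < ℓ := by linarith
  have hc0 : 0 < c := by linarith
  have hK0 : 0 < K := by
    have : 0 < 16 * (ℓ:ℝ) * c := by positivity
    linarith
  set N := ∑ v, ν v with hN
  have hN0 : 0 ≤ N := Finset.sum_nonneg (fun v _ => hν0 v)
  rcases eq_or_lt_of_le hN0 with hNz | hNpos
  · -- trivial case
    have hνz : ∀ v, ν v = 0 := by
      intro v
      have := (Finset.sum_eq_zero_iff_of_nonneg (fun v _ => hν0 v)).mp hNz.symm v (Finset.mem_univ v)
      exact this
    obtain ⟨σ, hσ⟩ := hcon (fun _ => 0) (fun _ => le_refl _) (by simp [← hNz])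
    have : ∑ v ∈ S σ, ν v * (1 / 2 - γ * (Q σ v).card - ∑ x ∈ Q σ v, (fun _ => (0:ℝ)) x) = 0 := by
      refine Finset.sum_eq_zero (fun v _ => by rw [hνz v, zero_mul])
    linarith
  have hη0 : 0 < η := by rw [hη]; positivity
  have hM : 0 < η * N := by positivity
  -- LP duality
  set a : ι → ℝ := fun σ => ∑ v ∈ S σ, ν v * (1 / 2 - γ * (Q σ v).card) - K with ha
  set l : ι → V → ℝ := fun σ x => ∑ v ∈ S σ, if x ∈ Q σ v then ν v else 0 with hl
  have hl0 : ∀ σ x, 0 ≤ l σ x := by
    intro σ x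
    refine Finset.sum_nonneg (fun v _ => ?_)
    split_ifs
    · exact hν0 v
    · exact le_refl _
  have hexch : ∀ (σ : ι) (w : V → ℝ), ∑ x, l σ x * w x = ∑ v ∈ S σ, ν v * ∑ x ∈ Q σ v, w x := by
    intro σ w
    simp only [hl, Finset.sum_mul]
    rw [Finset.sum_comm]
    refine Finset.sum_congr rfl (fun v _ => ?_)
    rw [Finset.mul_sum]
    simp only [ite_mul, zero_mul]
    rw [Finset.sum_ite_mem, Finset.univ_inter]
  obtain ⟨q, hq0, hql, hqa⟩ := lp_dual a l (η * N) hM (by
    intro w hw0 hwM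
    obtain ⟨σ, hσ⟩ := hcon w hw0 hwM
    refine ⟨σ, ?_⟩
    rw [hexch]
    simp only [ha]
    have : ∑ v ∈ S σ, ν v * (1 / 2 - γ * (Q σ v).card - ∑ x ∈ Q σ v, w x)
        = ∑ v ∈ S σ, ν v * (1 / 2 - γ * (Q σ v).card) - ∑ v ∈ S σ, ν v * ∑ x ∈ Q σ v, w x := by
      rw [← Finset.sum_sub_distrib]
      refine Finset.sum_congr rfl (fun v _ => by ring)
    rw [this] at hσ
    linarith)
  set X : ι → ℝ := fun σ => if 0 < a σ then q σ else 0 with hX
  set b : ι → ℝ := fun σ => ∑ v ∈ S σ, ν v with hb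
  have hb0 : ∀ σ, 0 ≤ b σ := fun σ => Finset.sum_nonneg (fun v _ => hν0 v)
  have hX0 : ∀ σ, 0 ≤ X σ := by
    intro σ; simp only [hX]; split_ifs
    · exact hq0 σ
    · exact le_refl _
  have hXq : ∀ σ, X σ ≤ q σ := by
    intro σ; simp only [hX]; split_ifs
    · exact le_refl _
    · exact hq0 σ
  have hloads : ∀ y, ∑ σ, X σ * l σ y ≤ 1 := by
    intro y
    refine le_trans (Finset.sum_le_sum (fun σ _ => ?_)) (hql y)
    exact mul_le_mul_of_nonneg_right (hXq σ) (hl0 σ y)
  have hab : ∀ σ, a σ ≤ b σ / 2 - K := by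
    intro σ
    simp only [ha, hb]
    have : ∑ v ∈ S σ, ν v * (1 / 2 - γ * (Q σ v).card) ≤ (∑ v ∈ S σ, ν v) / 2 := by
      rw [Finset.sum_div]
      refine Finset.sum_le_sum (fun v _ => ?_)
      have h1 := hν0 v
      have h2 : 0 ≤ γ * (Q σ v).card := by positivity
      nlinarith
    linarith
  set t : ι → ℝ := fun σ => X σ * b σ with ht
  have ht0 : ∀ σ, 0 ≤ t σ := fun σ => mul_nonneg (hX0 σ) (hb0 σ)
  have hT : 2 * (η * N) ≤ ∑ σ, t σ := by
    have h1 : ∑ σ, q σ * a σ ≤ ∑ σ, X σ * a σ := by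
      refine Finset.sum_le_sum (fun σ _ => ?_)
      simp only [hX]
      split_ifs with h
      · exact le_refl _
      · have := hq0 σ
        push Not at h
        nlinarith
    have h2 : ∑ σ, X σ * a σ ≤ ∑ σ, t σ / 2 := by
      refine Finset.sum_le_sum (fun σ _ => ?_)
      have := hab σ
      have := hX0 σ
      simp only [ht]
      nlinarith
    rw [← Finset.sum_div] at h2
    linarith
  have htb : ∀ σ, 2 * K * t σ ≤ t σ * b σ := by
    intro σ
    by_cases h : 0 < a σ
    · have h1 : 2 * K ≤ b σ := by have := hab σ; linarith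
      have := ht0 σ
      nlinarith
    · have : t σ = 0 := by simp only [ht, hX, if_neg h, zero_mul]
      rw [this]; simp
  have hbM : ∀ σ, b σ ≤ 5 * K := by
    intro σ
    calc b σ ≤ ∑ v ∈ S σ, (1:ℝ) := Finset.sum_le_sum (fun v _ => hν1 v)
      _ = (S σ).card := by simp
      _ ≤ 5 * K := hSM σ
  have htX : ∀ σ, t σ ≤ 5 * K * X σ := by
    intro σ
    simp only [ht]
    have := hX0 σ
    have := hbM σ
    nlinarith
  have hbl : ∀ σ, b σ = l σ (root σ) := by
    intro σ
    simp only [hb, hl]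
    refine Finset.sum_congr rfl (fun v hv => ?_)
    rw [if_pos (hrQ σ v hv)]
  have hroot : ∀ u, ∑ σ, (if root σ = u then t σ else 0) ≤ 1 := by
    intro u
    refine le_trans (Finset.sum_le_sum (fun σ _ => ?_)) (hloads u)
    split_ifs with h
    · simp only [ht]; rw [hbl σ, h]
    · exact mul_nonneg (hX0 σ) (hl0 σ u)
  have ht1 : ∀ σ, t σ ≤ 1 := by
    intro σ
    refine le_trans ?_ (hroot (root σ))
    have := Finset.single_le_sum (f := fun σ' => if root σ' = root σ then t σ' else 0)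
      (s := Finset.univ) (fun x _ => by
        show (0:ℝ) ≤ if root x = root σ then t x else 0
        split_ifs
        · exact ht0 _
        · exact le_refl _) (Finset.mem_univ σ)
    simpa using this
  -- sampling parameters
  set p0 : ℝ := 1 / (40 * ℓ * c) with hp0
  set p : ℝ := 2 * c / K with hp
  have hp0pos : 0 < p0 := by rw [hp0]; positivity
  have hppos : 0 < p := by rw [hp]; positivity
  have hp0le : p0 ≤ 1 / 8 := by
    rw [hp0]
    rw [div_le_div_iff₀ (by positivity) (by norm_num)]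
    have : 1 ≤ (ℓ:ℝ) * c := by nlinarith
    nlinarith
  have hlp : ℓ * p ≤ 1 / 8 := by
    rw [hp]
    have : (ℓ:ℝ) * (2 * c / K) = (2 * ℓ * c) / K := by ring
    rw [this, div_le_div_iff₀ hK0 (by norm_num)]
    linarith
  have hp1 : p ≤ 1 := by
    have : p ≤ ℓ * p := by nlinarith
    linarith
  have hpp : ℓ * (p0 * p * (5 * K)) = 1 / 4 := by
    rw [hp0, hp]; field_simp; norm_num
  have hmain := sampling root S Q hvQ c hgood (fun σ => p0 * t σ) (fun v => p * ν v)
    (fun σ => mul_nonneg hp0pos.le (ht0 σ))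
    (fun σ => by
      have := ht1 σ
      have := ht0 σ
      nlinarith)
    (fun v => mul_nonneg hppos.le (hν0 v))
    (fun v => by
      have := hν1 v
      have := hν0 v
      nlinarith)
  -- lower bound for the correction factor
  have hG : ∀ σ, ∀ v ∈ S σ,
      1 / 2 ≤ Gfac root S Q (fun σ => p0 * t σ) (fun v => p * ν v) σ v := by
    intro σ v hv
    have g1 : ∑ x ∈ Q σ v, p * ν x ≤ 1 / 8 := by
      calc ∑ x ∈ Q σ v, p * ν x ≤ ∑ x ∈ Q σ v, p := by
            refine Finset.sum_le_sum (fun x _ => ?_)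
            have := hν1 x
            nlinarith
        _ = (Q σ v).card * p := by simp
        _ ≤ ℓ * p := by
            have : ((Q σ v).card : ℝ) ≤ ℓ := by exact_mod_cast hQ σ v hv
            gcongr
        _ ≤ 1 / 8 := hlp
    have g3 : (∑ σ', if (σ' ≠ σ ∧ root σ' = root σ) then p0 * t σ' else 0) ≤ 1 / 8 := by
      calc (∑ σ', if (σ' ≠ σ ∧ root σ' = root σ) then p0 * t σ' else 0)
          ≤ ∑ σ', p0 * (if root σ' = root σ then t σ' else 0) := by
            refine Finset.sum_le_sum (fun σ' _ => ?_)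
            by_cases h1 : σ' ≠ σ ∧ root σ' = root σ
            · rw [if_pos h1, if_pos h1.2]
            · rw [if_neg h1]
              split_ifs
              · exact mul_nonneg hp0pos.le (ht0 σ')
              · simp
        _ = p0 * ∑ σ', (if root σ' = root σ then t σ' else 0) := by rw [Finset.mul_sum]
        _ ≤ p0 * 1 := by
            have := hroot (root σ)
            gcongr
        _ ≤ 1 / 8 := by linarith
    have g2 : (∑ σ', ∑ v' ∈ S σ', if (root σ' ≠ root σ ∧ v' ≠ v ∧ ¬ Disjoint (Q σ v) (Q σ' v'))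
        then p0 * t σ' * (p * ν v') else 0) ≤ 1 / 4 := by
      calc (∑ σ', ∑ v' ∈ S σ', if (root σ' ≠ root σ ∧ v' ≠ v ∧ ¬ Disjoint (Q σ v) (Q σ' v'))
            then p0 * t σ' * (p * ν v') else 0)
          ≤ ∑ σ', ∑ v' ∈ S σ', ∑ x ∈ Q σ v, (if x ∈ Q σ' v' then
              p0 * p * (5 * K) * (X σ' * ν v') else 0) := by
            refine Finset.sum_le_sum (fun σ' _ => Finset.sum_le_sum (fun v' _ => ?_))
            have hnn : ∀ x ∈ Q σ v, (0:ℝ) ≤ (if x ∈ Q σ' v' then
              p0 * p * (5 * K) * (X σ' * ν v') else 0) := by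
              intro x _
              split_ifs
              · have := hX0 σ'
                have := hν0 v'
                positivity
              · exact le_refl _
            by_cases h1 : root σ' ≠ root σ ∧ v' ≠ v ∧ ¬ Disjoint (Q σ v) (Q σ' v')
            · rw [if_pos h1]
              have h2 := h1.2.2
              rw [Finset.not_disjoint_iff] at h2
              obtain ⟨x, hx1, hx2⟩ := h2
              have h3 := Finset.single_le_sum hnn hx1
              rw [if_pos hx2] at h3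
              refine le_trans ?_ h3
              have h4 := htX σ'
              have h5 := hν0 v'
              calc p0 * t σ' * (p * ν v') = (p0 * p * ν v') * t σ' := by ring
                _ ≤ (p0 * p * ν v') * (5 * K * X σ') := by gcongr
                _ = p0 * p * (5 * K) * (X σ' * ν v') := by ring
            · rw [if_neg h1]
              exact Finset.sum_nonneg hnn
        _ = ∑ x ∈ Q σ v, p0 * p * (5 * K) * ∑ σ', X σ' * l σ' x := by
            have e1 : ∀ σ', ∑ v' ∈ S σ', ∑ x ∈ Q σ v, (if x ∈ Q σ' v' then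
                p0 * p * (5 * K) * (X σ' * ν v') else 0)
                = ∑ x ∈ Q σ v, p0 * p * (5 * K) * (X σ' * l σ' x) := by
              intro σ'
              rw [Finset.sum_comm]
              refine Finset.sum_congr rfl (fun x _ => ?_)
              simp only [hl, Finset.mul_sum]
              refine Finset.sum_congr rfl (fun v' _ => ?_)
              split_ifs <;> simp
            simp only [e1]
            rw [Finset.sum_comm]
            refine Finset.sum_congr rfl (fun x _ => by rw [Finset.mul_sum])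
        _ ≤ ∑ x ∈ Q σ v, p0 * p * (5 * K) * 1 := by
            refine Finset.sum_le_sum (fun x _ => ?_)
            have := hloads x
            gcongr
        _ = (Q σ v).card * (p0 * p * (5 * K)) := by simp
        _ ≤ ℓ * (p0 * p * (5 * K)) := by
            have : ((Q σ v).card : ℝ) ≤ ℓ := by exact_mod_cast hQ σ v hv
            gcongr
        _ ≤ 1 / 4 := by rw [hpp]
    unfold Gfac
    linarith
  have hlow : p0 * p * K * ∑ σ, t σ ≤ ∑ σ, ∑ v ∈ S σ, p0 * t σ * (p * ν v *
      Gfac root S Q (fun σ => p0 * t σ) (fun v => p * ν v) σ v) := by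
    rw [Finset.mul_sum]
    refine Finset.sum_le_sum (fun σ _ => ?_)
    calc p0 * p * K * t σ ≤ p0 * p * (1 / 2) * (t σ * b σ) := by
          have := htb σ
          have h2 : 0 ≤ p0 * p := by positivity
          nlinarith
      _ = ∑ v ∈ S σ, p0 * t σ * (p * ν v * (1 / 2)) := by
          simp only [hb, Finset.mul_sum]
          refine Finset.sum_congr rfl (fun v _ => by ring)
      _ ≤ _ := by
          refine Finset.sum_le_sum (fun v hv => ?_)
          have h1 := hG σ v hv
          have h2 := ht0 σ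
          have h3 := hν0 v
          gcongr
  have hfin : p0 * p * K * ∑ σ, t σ ≤ c * (p0 * ∑ σ, t σ + p * N) := by
    refine le_trans hlow (le_trans hmain ?_)
    rw [hN, Finset.mul_sum, Finset.mul_sum]
  set Tt := ∑ σ, t σ with hTt
  have e1 : p0 * p * K = 1 / (20 * ℓ) := by
    rw [hp0, hp]; field_simp; norm_num
  have e2 : c * p0 = 1 / (40 * ℓ) := by
    rw [hp0]; field_simp
  have e3 : c * (p0 * Tt + p * N) = 1 / (40 * ℓ) * Tt + c * p * N := by
    rw [← e2]; ring
  rw [e1, e3] at hfin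
  have h5 : 1 / (40 * (ℓ:ℝ)) * Tt ≤ c * p * N := by
    have : 1 / (20 * (ℓ:ℝ)) = 1 / (40 * ℓ) + 1 / (40 * ℓ) := by field_simp; norm_num
    rw [this] at hfin
    linarith
  have h6 : Tt ≤ 40 * ℓ * (c * p * N) := by
    have : Tt = 40 * ℓ * (1 / (40 * (ℓ:ℝ)) * Tt) := by field_simp
    rw [this]
    gcongr
  have h7 : 40 * ℓ * (c * p * N) = 80 * ℓ * c ^ 2 / K * N := by
    rw [hp]; field_simp; norm_num
  have h8 : 2 * (η * N) = 128 * ℓ * c ^ 2 / K * N := by
    rw [hη]; field_simp; norm_num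
  have h9 : 80 * ℓ * c ^ 2 / K * N < 128 * ℓ * c ^ 2 / K * N := by
    gcongr
    norm_num
  linarith

end Pool.Agent.SC
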